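import Pool.Agent.Lib.FD.Basic

/-!
# Laurent polynomials over a commutative ring: the projections to the exponents congruent to `c`
-/

set_option autoImplicit false

namespace FR

open Finset FD

section TorusOps

variable {k : Type*} [CommRing k] {n : ℕ}

/-- the part of `f` with exponents congruent to `c` -/
noncomputable def proj (k : Type*) [CommRing k] {n : ℕ} (p q : ℕ) (c : Fin n → ℤ) :
    Torus k n →+ Torus k n := by
  classical
  exact
  { toFun := fun f => AddMonoidAlgebra.ofCoeff (f.coeff.filter (fun a => Cong p q a c))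
    map_zero' := by
      ext a
      simp [Finsupp.filter_zero]
    map_add' := by
      intro f g
      ext a
      simp [Finsupp.filter_add] }

open scoped Classical in
theorem coeff_proj (p q : ℕ) (c : Fin n → ℤ) (f : Torus k n) (a : Fin n → ℤ) :
    (proj k p q c f).coeff a = if Cong p q a c then f.coeff a else 0 := by
  show (f.coeff.filter _) a = _
  rw [Finsupp.filter_apply]

theorem mon_mul_mon (a b : Fin n → ℤ) : mon k a * mon k b = mon k (a + b) := by
  rw [mon, mon, AddMonoidAlgebra.single_mul_single, mul_one]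
  rfl

theorem mon_zero : mon k (0 : Fin n → ℤ) = 1 := rfl

theorem coeff_mon_mul (a : Fin n → ℤ) (f : Torus k n) (b : Fin n → ℤ) :
    (mon k a * f).coeff b = f.coeff (b - a) := by
  rw [mon, AddMonoidAlgebra.coeff_single_mul_apply, one_mul]
  congr 1
  abel

open scoped Classical in
theorem proj_mon_mul (p q : ℕ) (c a : Fin n → ℤ) (f : Torus k n) :
    proj k p q c (mon k a * f) = mon k a * proj k p q (c - a) f := by
  ext b
  rw [coeff_proj, coeff_mon_mul, coeff_mon_mul, coeff_proj]
  have h : Cong p q b c ↔ Cong p q (b - a) (c - a) := by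
    constructor <;> intro h i <;> have := h i <;> simpa using this
  rw [h]

theorem proj_congr {p q : ℕ} {c d : Fin n → ℤ} (h : Cong p q c d) (f : Torus k n) :
    proj k p q c f = proj k p q d f := by
  classical
  ext b
  rw [coeff_proj, coeff_proj]
  have : Cong p q b c ↔ Cong p q b d := ⟨fun h' => h'.trans h, fun h' => h'.trans h.symm⟩
  rw [this]

theorem coeff_scalar_mul (r : k) (f : Torus k n) (b : Fin n → ℤ) :
    (algebraMap k (Torus k n) r * f).coeff b = r * f.coeff b := by
  rw [← Algebra.smul_def]
  rfl

theorem proj_scalar_mul (p q : ℕ) (c : Fin n → ℤ) (r : k) (f : Torus k n) :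
    proj k p q c (algebraMap k (Torus k n) r * f)
      = algebraMap k (Torus k n) r * proj k p q c f := by
  classical
  ext b
  rw [coeff_proj, coeff_scalar_mul, coeff_scalar_mul, coeff_proj]
  split_ifs <;> simp

theorem single_eq (a : Fin n → ℤ) (r : k) :
    (AddMonoidAlgebra.single a r : Torus k n) = algebraMap k (Torus k n) r * mon k a := by
  ext b
  rw [coeff_scalar_mul, mon, AddMonoidAlgebra.coeff_single, AddMonoidAlgebra.coeff_single]
  by_cases h : a = b
  · subst h; simp
  · simp [h]

theorem torus_induction {P : Torus k n → Prop} (f : Torus k n) (h0 : P 0)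
    (hadd : ∀ x y, P x → P y → P (x + y))
    (hmon : ∀ (r : k) (a : Fin n → ℤ), P (algebraMap k (Torus k n) r * mon k a)) : P f := by
  rw [← AddMonoidAlgebra.sum_coeff_single f, Finsupp.sum]
  have : ∀ s : Finset (Fin n → ℤ),
      P (∑ a ∈ s, AddMonoidAlgebra.single a (f.coeff a)) := by
    classical
    intro s
    induction s using Finset.induction_on with
    | empty => simpa using h0
    | insert a s ha ih =>
      rw [Finset.sum_insert ha]
      refine hadd _ _ ?_ ih
      rw [single_eq]
      exact hmon _ _
  exact this _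

variable (p : ℕ) [hp : Fact p.Prime] [CharP k p]

instance torusCharP : CharP (Torus k n) p := by
  refine charP_of_injective_algebraMap (R := k) ?_ p
  intro a b h
  have h1 := congrArg (fun f : Torus k n => f.coeff 0) h
  simpa using h1

theorem mon_pow (a : Fin n → ℤ) (m : ℕ) : mon k a ^ m = mon k (m • a) := by
  induction m with
  | zero => rw [pow_zero, zero_smul]; rfl
  | succ m ih => rw [pow_succ, ih, mon_mul_mon, succ_nsmul]

theorem cong_pow_smul (q : ℕ) (a c : Fin n → ℤ) : Cong p q (c - (p ^ q) • a) c := by
  intro i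
  rw [Pi.sub_apply, Pi.smul_apply, nsmul_eq_mul]
  push_cast
  exact ⟨-a i, by ring⟩

/-- `proj` is linear over the `p^q`-th powers -/
theorem proj_pow_mul (q : ℕ) (c : Fin n → ℤ) (s f : Torus k n) :
    proj k p q c (s ^ p ^ q * f) = s ^ p ^ q * proj k p q c f := by
  induction s using torus_induction with
  | h0 => rw [zero_pow (pow_ne_zero _ hp.out.ne_zero), zero_mul, zero_mul, map_zero]
  | hadd x y hx hy => rw [add_pow_char_pow, add_mul, add_mul, map_add, hx, hy]
  | hmon r a =>
    rw [mul_pow, ← map_pow, mon_pow, mul_assoc, proj_scalar_mul, proj_mon_mul,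
      proj_congr (cong_pow_smul p q a c), mul_assoc]

omit hp [CharP k p] in
theorem proj_zero_one (q : ℕ) : proj k p q (0 : Fin n → ℤ) 1 = 1 := by
  classical
  ext b
  rw [coeff_proj]
  split_ifs with h
  · rfl
  · have : b ≠ 0 := by
      rintro rfl
      exact h (Cong.refl p q 0)
    have h1 : (1 : Torus k n) = AddMonoidAlgebra.single 0 1 := rfl
    rw [h1, AddMonoidAlgebra.coeff_single]
    simp [this.symm]

theorem proj_zero_of_isPow {q : ℕ} {f : Torus k n} (h : IsPow p q f) :
    proj k p q 0 f = f := by
  obtain ⟨c, rfl⟩ := h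
  have := proj_pow_mul p q 0 c 1
  rwa [mul_one, proj_zero_one, mul_one] at this

omit [CharP k p] in
theorem isPow_zero (q : ℕ) : IsPow p q (0 : Torus k n) :=
  ⟨0, zero_pow (pow_ne_zero _ hp.out.ne_zero)⟩

theorem isPow_add {B : Type*} [CommRing B] [CharP B p] {q : ℕ} {f g : B} (h : IsPow p q f)
    (h' : IsPow p q g) : IsPow p q (f + g) := by
  obtain ⟨a, rfl⟩ := h
  obtain ⟨b, rfl⟩ := h'
  exact ⟨a + b, add_pow_char_pow _ _ _ _⟩


end TorusOps

end FR
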