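import Pool.Agent.Lib.FD.Prim

/-!
# Coordinates on projective modules of arbitrary rank
-/

set_option autoImplicit false

namespace FR

open Finset FD

/-- Coordinates of level `q`: `M` is a direct summand of a free `B`-module with a basis whose images
are in `G`, and the coordinates of the elements of `G` are `p^q`-th powers. -/
structure Co.{w, v, v'} (p q : ℕ) (B : Type v) [CommRing B] {M : Type v'} [AddCommGroup M]
    [Module B M] (G : AddSubgroup M) where
  σ : Type w
  ξ : M →ₗ[B] (σ →₀ B)
  ε : (σ →₀ B) →ₗ[B] M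
  eps_xi : ∀ m, ε (ξ m) = m
  mem : ∀ i, ε (Finsupp.single i 1) ∈ G
  pow : ∀ m ∈ G, ∀ i, IsPow p q (ξ m i)

variable {p q : ℕ} {B : Type*} [CommRing B] [IsDomain B] {M : Type*}
  [AddCommGroup M] [Module B M] {G : AddSubgroup M}

theorem Co.smul_cancel (C : Co p q B G) {a : B} (ha : a ≠ 0) {m m' : M} (h : a • m = a • m') :
    m = m' := by
  rw [← C.eps_xi m, ← C.eps_xi m']
  congr 1
  ext i
  have h1 := congrArg (fun f => C.ξ f i) h
  simp only [map_smul, Finsupp.smul_apply, smul_eq_mul] at h1
  exact mul_left_cancel₀ ha h1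

omit [IsDomain B] in
/-- divisibility by the coordinates -/
theorem Co.dvd_of (C : Co p q B G) {c : B} {m : M} (h : ∀ i, c ∣ C.ξ m i) : ∃ m' : M, m = c • m' := by
  classical
  choose y hy using h
  let f : C.σ →₀ B := Finsupp.onFinset (C.ξ m).support
    (fun i => if i ∈ (C.ξ m).support then y i else 0) (fun i hi => by
      by_contra hne
      exact hi (if_neg hne))
  refine ⟨C.ε f, ?_⟩
  rw [← map_smul]
  conv_lhs => rw [← C.eps_xi m]
  congr 1
  ext i
  rw [Finsupp.smul_apply, smul_eq_mul, Finsupp.onFinset_apply]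
  split_ifs with hi
  · exact hy i
  · rw [mul_zero]
    exact Finsupp.notMem_support_iff.mp hi

end FR
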