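import Pool.Agent.Lib.FR.LocFin
import Pool.Agent.Lib.FR.Co
import Pool.Agent.Lib.FD.Units
import Pool.Agent.Lib.FD.Diag

/-!
# Coordinates on `R = A ⊗ B` and on `A[x^±1] = A ⊗ k[x^±1]`
-/

set_option autoImplicit false

namespace FR

open Finset FD

/-- the inclusion `k[x^±1] → A[x^±1]` -/
noncomputable abbrev toT (k A : Type*) [CommRing k] [CommRing A] [Algebra k A] (n : ℕ) :
    Torus k n →+* Torus A n :=
  AddMonoidAlgebra.mapRingHom (Fin n → ℤ) (algebraMap k A)

universe w

/-- `R` is `A ⊗ B`, and `R → A[x^±1]` is the natural map. -/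
structure Data (k : Type*) (A : Type w) (B R : Type*) (n : ℕ) [CommRing k] [CommRing A] [Algebra k A] [CommRing B]
    [Algebra k B] [Algebra B (Torus k n)] [CommRing R] [Algebra A R] [Algebra B R]
    [Algebra R (Torus A n)] where
  σ : Type w
  bA : Module.Basis σ k A
  bR : Module.Basis σ B R
  bR_eq : ∀ s, bR s = algebraMap A R (bA s)
  hk : ∀ c : k, algebraMap A R (algebraMap k A c) = algebraMap B R (algebraMap k B c)
  hB : ∀ b : B, algebraMap R (Torus A n) (algebraMap B R b)
    = toT k A n (algebraMap B (Torus k n) b)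
  hA : ∀ a : A, algebraMap R (Torus A n) (algebraMap A R a) = algebraMap A (Torus A n) a

section Tor

variable {k A : Type*} [CommRing k] [CommRing A] [Algebra k A] {n : ℕ}

theorem toT_mon (a : Fin n → ℤ) : toT k A n (mon k a) = mon A a := by
  rw [mon, AddMonoidAlgebra.mapRingHom_single, map_one]
  rfl

omit [Algebra k A] in
theorem coeff_algebraMap (x : A) (b : Fin n → ℤ) :
    (algebraMap A (Torus A n) x).coeff b = if b = 0 then x else 0 := by
  rw [AddMonoidAlgebra.coe_algebraMap]
  show (AddMonoidAlgebra.single (0 : Fin n → ℤ) x).coeff b = _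
  rw [AddMonoidAlgebra.coeff_single, Finsupp.single_apply]
  by_cases h : b = 0
  · subst h; simp
  · rw [if_neg (Ne.symm h), if_neg h]

theorem toT_algebraMap (c : k) :
    toT k A n (algebraMap k (Torus k n) c) = algebraMap A (Torus A n) (algebraMap k A c) := by
  ext b
  rw [AddMonoidAlgebra.coeff_mapRingHom, coeff_algebraMap, coeff_algebraMap]
  split_ifs <;> simp

/-- a linear form on `A`, applied to the coefficients -/
noncomputable def lamT (l : A →ₗ[k] k) : Torus A n →+ Torus k n where
  toFun t := AddMonoidAlgebra.ofCoeff (t.coeff.mapRange l (map_zero l))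
  map_zero' := by ext; simp
  map_add' := by intro x y; ext; simp

theorem coeff_lamT (l : A →ₗ[k] k) (t : Torus A n) (a : Fin n → ℤ) :
    (lamT l t).coeff a = l (t.coeff a) := rfl

theorem lamT_mul (l : A →ₗ[k] k) (f : Torus k n) (a : A) :
    lamT l (toT k A n f * algebraMap A (Torus A n) a) = algebraMap k (Torus k n) (l a) * f := by
  ext b
  rw [coeff_lamT, mul_comm (toT k A n f), coeff_scalar_mul, coeff_scalar_mul,
    AddMonoidAlgebra.coeff_mapRingHom, mul_comm a, ← Algebra.smul_def, map_smul, smul_eq_mul,
    mul_comm]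

theorem lamT_toT_mul (l : A →ₗ[k] k) (f : Torus k n) (t : Torus A n) :
    lamT l (toT k A n f * t) = f * lamT l t := by
  induction t using torus_induction with
  | h0 => simp
  | hadd x y hx hy => rw [mul_add, map_add, map_add, hx, hy, mul_add]
  | hmon r a =>
    have h1 : toT k A n f * (algebraMap A (Torus A n) r * mon A a)
        = toT k A n (f * mon k a) * algebraMap A (Torus A n) r := by
      rw [map_mul, toT_mon]; ring
    have h2 : algebraMap A (Torus A n) r * mon A a
        = toT k A n (mon k a) * algebraMap A (Torus A n) r := by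
      rw [toT_mon]; ring
    rw [h1, h2, lamT_mul, lamT_mul]
    ring

/-- induction over `A[x^±1] = k[x^±1] ⊗ A` -/
theorem T_ind {P : Torus A n → Prop} (t : Torus A n) (h0 : P 0)
    (hadd : ∀ x y, P x → P y → P (x + y))
    (hmul : ∀ (f : Torus k n) (a : A), P (toT k A n f * algebraMap A (Torus A n) a)) : P t := by
  induction t using torus_induction with
  | h0 => exact h0
  | hadd x y hx hy => exact hadd _ _ hx hy
  | hmon r a =>
    have := hmul (mon k a) r
    rwa [toT_mon, mul_comm] at this

/-- expansion in a basis of `A` -/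
theorem T_expand {σ : Type*} (bA : Module.Basis σ k A) (t : Torus A n) :
    ∃ c : σ →₀ Torus k n, t = c.sum fun s f => toT k A n f * algebraMap A (Torus A n) (bA s) := by
  classical
  refine T_ind (k := k) (P := fun t => ∃ c : σ →₀ Torus k n,
    t = c.sum fun s f => toT k A n f * algebraMap A (Torus A n) (bA s)) t ⟨0, by simp⟩ ?_ ?_
  · rintro _ _ ⟨c, rfl⟩ ⟨c', rfl⟩
    refine ⟨c + c', ?_⟩
    rw [Finsupp.sum_add_index']
    · intro s; simp
    · intro s f g; rw [map_add, add_mul]
  · intro f a
    refine ⟨(bA.repr a).mapRange (fun x => algebraMap k (Torus k n) x * f) (by simp), ?_⟩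
    rw [Finsupp.sum_mapRange_index (by intro s; simp)]
    conv_lhs => rw [← bA.linearCombination_repr a, Finsupp.linearCombination_apply, Finsupp.sum,
      map_sum, Finset.mul_sum]
    apply Finset.sum_congr rfl
    intro s _
    dsimp only
    rw [map_mul, toT_algebraMap, Algebra.smul_def, map_mul]
    ring

end Tor

section DataLemmas

variable {k A B R : Type*} {n : ℕ} [Field k] [CommRing A] [Algebra k A] [CommRing B]
    [Algebra k B] [Algebra B (Torus k n)] [CommRing R] [Algebra A R] [Algebra B R]
    [Algebra R (Torus A n)] (D : Data k A B R n)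

include D

theorem R_ind {P : R → Prop} (r : R) (h0 : P 0) (hadd : ∀ x y, P x → P y → P (x + y))
    (hmul : ∀ (b : B) (a : A), P (algebraMap B R b * algebraMap A R a)) : P r := by
  classical
  rw [← D.bR.linearCombination_repr r, Finsupp.linearCombination_apply, Finsupp.sum]
  have : ∀ s : Finset D.σ, P (∑ i ∈ s, D.bR.repr r i • D.bR i) := by
    intro s
    induction s using Finset.induction_on with
    | empty => simpa using h0
    | insert i s hi ih =>
      rw [Finset.sum_insert hi]
      refine hadd _ _ ?_ ih
      rw [D.bR_eq, Algebra.smul_def]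
      exact hmul _ _
  exact this _

/-- a linear form on `A`, extended to `R` -/
noncomputable def lamR (l : A →ₗ[k] k) : R →ₗ[B] B :=
  D.bR.constr B fun s => algebraMap k B (l (D.bA s))

theorem lamR_A (l : A →ₗ[k] k) (a : A) : lamR D l (algebraMap A R a) = algebraMap k B (l a) := by
  conv_lhs => rw [← D.bA.linearCombination_repr a, Finsupp.linearCombination_apply, Finsupp.sum,
    map_sum, map_sum]
  conv_rhs => rw [← D.bA.linearCombination_repr a, Finsupp.linearCombination_apply, Finsupp.sum,
    map_sum, map_sum]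
  apply Finset.sum_congr rfl
  intro s _
  rw [Algebra.smul_def, map_mul, D.hk, ← D.bR_eq, ← Algebra.smul_def, map_smul, lamR,
    Module.Basis.constr_basis, smul_eq_mul, ← map_mul, ← Algebra.smul_def, map_smul, smul_eq_mul]

theorem lamR_mul (l : A →ₗ[k] k) (b : B) (a : A) :
    lamR D l (algebraMap B R b * algebraMap A R a) = b * algebraMap k B (l a) := by
  rw [← Algebra.smul_def, map_smul, lamR_A, smul_eq_mul]

theorem lamT_algebraMap [IsScalarTower k B (Torus k n)] (l : A →ₗ[k] k) (r : R) :
    lamT l (algebraMap R (Torus A n) r) = algebraMap B (Torus k n) (lamR D l r) := by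
  induction r using R_ind D with
  | h0 => simp
  | hadd x y hx hy => rw [map_add, map_add, hx, hy, map_add, map_add]
  | hmul b a =>
    rw [map_mul, D.hB, D.hA, lamT_mul, lamR_mul, map_mul, ← IsScalarTower.algebraMap_apply,
      mul_comm]

theorem lamR_coord (s : D.σ) (r : R) : lamR D (D.bA.coord s) r = D.bR.repr r s := by
  classical
  have h : lamR D (D.bA.coord s) = D.bR.coord s := by
    apply D.bR.ext
    intro i
    rw [lamR, Module.Basis.constr_basis]
    simp only [Module.Basis.coord_apply, Module.Basis.repr_self, Finsupp.single_apply]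
    split_ifs <;> simp
  rw [h, Module.Basis.coord_apply]

theorem algebraMap_inj [IsScalarTower k B (Torus k n)]
    (hinj : Function.Injective (algebraMap B (Torus k n))) :
    Function.Injective (algebraMap R (Torus A n)) := by
  rw [injective_iff_map_eq_zero]
  intro r hr
  apply D.bR.repr.injective
  ext s
  rw [map_zero, Finsupp.zero_apply, ← lamR_coord]
  apply hinj
  rw [← lamT_algebraMap, hr, map_zero, map_zero]

end DataLemmas

section Pow

variable {p : ℕ} [hp : Fact p.Prime] {k A B R : Type*} {n : ℕ} [Field k] [CharP k p]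
    [IsAlgClosed k] [CommRing A] [Algebra k A] [CommRing B]
    [Algebra k B] [Algebra B (Torus k n)] [CommRing R] [Algebra A R] [Algebra B R]
    [Algebra R (Torus A n)] (D : Data k A B R n) [CharP A p] [CharP B p] [CharP R p]

omit [CharP k p] in
theorem isPow_k (q : ℕ) (c : k) : ∃ d : k, d ^ p ^ q = c :=
  IsAlgClosed.exists_pow_nat_eq c (Nat.pos_of_ne_zero (pow_ne_zero q hp.out.ne_zero))

omit [CharP k p] [CharP A p] in
theorem lamR_isPow (l : A →ₗ[k] k) (q : ℕ) (a : A) (r : R) :
    IsPow p q (lamR D l (algebraMap A R a * r ^ p ^ q)) := by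
  induction r using R_ind D with
  | h0 =>
    rw [zero_pow (pow_ne_zero _ hp.out.ne_zero), mul_zero, map_zero]
    exact ⟨0, zero_pow (pow_ne_zero _ hp.out.ne_zero)⟩
  | hadd x y hx hy =>
    rw [add_pow_char_pow, mul_add, map_add]
    exact isPow_add p hx hy
  | hmul b a' =>
    have h1 : algebraMap A R a * (algebraMap B R b * algebraMap A R a') ^ p ^ q
        = algebraMap B R (b ^ p ^ q) * algebraMap A R (a * a' ^ p ^ q) := by
      rw [mul_pow, map_pow, map_mul, map_pow]; ring
    rw [h1, lamR_mul]
    obtain ⟨d, hd⟩ := isPow_k (p := p) q (l (a * a' ^ p ^ q))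
    exact ⟨b * algebraMap k B d, by rw [mul_pow, ← map_pow, hd]⟩

end Pow

end FR
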