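import Pool.Agent.Lib.FR.Loc

/-!
# Coordinates of level `q` on `M` and on `V`
-/

set_option autoImplicit false

namespace FR

open Finset FD

section Cov

universe w v v'

variable {p : ℕ} [hp : Fact p.Prime] {k : Type*} {A : Type w} {B : Type v} {R : Type*} {n : ℕ}
    [Field k] [CharP k p]
    [IsAlgClosed k] [CommRing A] [Algebra k A] [CommRing B]
    [Algebra k B] [Algebra B (Torus k n)] [IsScalarTower k B (Torus k n)] [CommRing R]
    [Algebra A R] [Algebra B R]
    [Algebra R (Torus A n)] (D : Data k A B R n) [CharP B p] [CharP R p] [CharP A p]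
    {M : Type v'} [AddCommGroup M] [Module R M] [Module B M] [IsScalarTower B R M]
    {S : FDiv p R M} {V : Type*} [AddCommGroup V]
    [Module (Torus A n) V] [Module R V] [IsScalarTower R (Torus A n) V]
    {T : FDiv p (Torus A n) V} {j : M →ₗ[R] V} (hj : IsPull S T j)

theorem lamT_isPow (l : A →ₗ[k] k) (q : ℕ) (a : A) (t : Torus A n) :
    IsPow p q (lamT l (algebraMap A (Torus A n) a * t ^ p ^ q)) := by
  refine T_ind (k := k) (P := fun t => IsPow p q (lamT l (algebraMap A (Torus A n) a
    * t ^ p ^ q))) t ?_ ?_ ?_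
  · rw [zero_pow (pow_ne_zero _ hp.out.ne_zero), mul_zero, map_zero]
    exact isPow_zero p q
  · intro x y hx hy
    rw [add_pow_char_pow, mul_add, map_add]
    exact isPow_add p hx hy
  · intro f a'
    have h1 : algebraMap A (Torus A n) a * (toT k A n f * algebraMap A (Torus A n) a') ^ p ^ q
        = toT k A n (f ^ p ^ q) * algebraMap A (Torus A n) (a * a' ^ p ^ q) := by
      rw [mul_pow, map_pow, map_mul, map_pow]; ring
    rw [h1, lamT_mul]
    obtain ⟨d, hd⟩ := isPow_k (p := p) q (l (a * a' ^ p ^ q))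
    exact ⟨algebraMap k (Torus k n) d * f, by rw [mul_pow, ← map_pow, hd]⟩

include D hj

/-- coordinates of level `q` on `M`, extended to `V` -/
theorem exists_cov (q : ℕ) : ∃ (C : Co.{w, v, v'} p q B (GA A S q))
    (χ : C.σ → V →+ Torus k n),
    (∀ i m, χ i (j m) = algebraMap B (Torus k n) (C.ξ m i)) ∧
    (∀ i f x, χ i (toT k A n f • x) = f * χ i x) ∧
    (∀ i, ∀ x ∈ GA A T q, IsPow p q (χ i x)) := by
  classical
  obtain ⟨d, e, ξ, he, hξ, hsum⟩ := S.dual q
  choose ξ' hξ' using fun i => FR.exists_ext hj.1 (ξ i)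
  let ξB : Fin d → (M →ₗ[B] R) := fun i =>
    { toFun := ξ i
      map_add' := map_add _
      map_smul' := fun b m => by
        rw [← algebraMap_smul R b m, map_smul, smul_eq_mul, RingHom.id_apply, Algebra.smul_def] }
  let X : M →ₗ[B] (Fin d × D.σ →₀ B) := ∑ i, (Finsupp.lmapDomain B B (fun s => (i, s))) ∘ₗ
    (D.bR.repr.toLinearMap) ∘ₗ (ξB i)
  have hX : ∀ m i s, X m (i, s) = D.bR.repr (ξ i m) s := by
    intro m i s
    have h1 : X m (i, s) = ∑ l, (Finsupp.mapDomain (fun s => (l, s)) (D.bR.repr (ξ l m))) (i, s) := by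
      simp only [X, LinearMap.coe_sum, Finset.sum_apply, Finsupp.coe_finsetSum]
      rfl
    rw [h1, Finset.sum_eq_single i]
    · exact Finsupp.mapDomain_apply (fun a b h => (Prod.ext_iff.mp h).2) _ _
    · intro l _ hl
      apply Finsupp.mapDomain_notin_range
      rintro ⟨y, hy⟩
      exact hl (Prod.ext_iff.mp hy).1
    · simp
  let E : (Fin d × D.σ →₀ B) →ₗ[B] M := Finsupp.linearCombination B fun is => D.bR is.2 • e is.1
  have hE : ∀ m, E (X m) = m := by
    intro m
    have h1 : ∀ i, E (Finsupp.lmapDomain B B (fun s => (i, s)) (D.bR.repr (ξ i m)))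
        = ξ i m • e i := by
      intro i
      let φ : R →ₗ[B] M :=
        { toFun := fun r => r • e i
          map_add' := fun x y => add_smul _ _ _
          map_smul' := fun b r => by rw [smul_assoc, RingHom.id_apply] }
      have h2 : E (Finsupp.lmapDomain B B (fun s => (i, s)) (D.bR.repr (ξ i m)))
          = Finsupp.linearCombination B (fun s => φ (D.bR s)) (D.bR.repr (ξ i m)) := by
        show Finsupp.linearCombination B _ (Finsupp.mapDomain _ _) = _
        rw [Finsupp.linearCombination_mapDomain]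
        rfl
      have h3 : Finsupp.linearCombination B (fun s => φ (D.bR s)) (D.bR.repr (ξ i m))
          = φ (Finsupp.linearCombination B D.bR (D.bR.repr (ξ i m))) := by
        rw [Finsupp.apply_linearCombination]
        rfl
      rw [h2, h3, D.bR.linearCombination_repr]
      rfl
    have h4 : E (X m) = ∑ i, E (Finsupp.lmapDomain B B (fun s => (i, s)) (D.bR.repr (ξ i m))) := by
      rw [← map_sum]
      congr 1
      simp only [X, LinearMap.coe_sum, Finset.sum_apply]
      rfl
    rw [h4, Finset.sum_congr rfl fun i _ => h1 i, hsum]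
  refine ⟨{ σ := Fin d × D.σ, ξ := X, ε := E, eps_xi := hE, mem := ?_, pow := ?_ },
    fun is => (lamT (D.bA.coord is.2)).comp (ξ' is.1).toAddMonoidHom, ?_, ?_, ?_⟩
  · rintro ⟨i, s⟩
    have h1 : E (Finsupp.single (i, s) 1) = D.bR s • e i := by
      simp only [E, Finsupp.linearCombination_single, one_smul]
    rw [h1, D.bR_eq]
    exact smul_mem_GA S _ (F_le_GA S (he i))
  · intro m hm
    unfold GA at hm
    induction hm using AddSubgroup.closure_induction with
    | mem x hx =>
      obtain ⟨a, m, hm, rfl⟩ := hx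
      rintro ⟨i, s⟩
      obtain ⟨c, hc⟩ := hξ i m hm
      rw [hX, map_smul, ← hc, smul_eq_mul, ← lamR_coord]
      exact lamR_isPow D _ q a c
    | zero => intro i; rw [map_zero]; exact ⟨0, zero_pow (pow_ne_zero _ hp.out.ne_zero)⟩
    | add x y _ _ hx hy =>
      intro i
      rw [map_add, Finsupp.add_apply]
      exact isPow_add p (hx i) (hy i)
    | neg x _ hx =>
      intro i
      rw [map_neg, Finsupp.neg_apply]
      exact (hx i).neg
  · rintro ⟨i, s⟩ m
    show lamT (D.bA.coord s) (ξ' i (j m)) = algebraMap B (Torus k n) (X m (i, s))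
    rw [hξ', lamT_algebraMap D, hX, lamR_coord]
  · rintro ⟨i, s⟩ f x
    show lamT (D.bA.coord s) (ξ' i (toT k A n f • x)) = f * lamT (D.bA.coord s) (ξ' i x)
    rw [map_smul, smul_eq_mul, lamT_toT_mul]
  · rintro ⟨i, s⟩ x hx
    show IsPow p q (lamT (D.bA.coord s) (ξ' i x))
    unfold GA at hx
    induction hx using AddSubgroup.closure_induction with
    | mem x hx =>
      obtain ⟨a, m, hm, rfl⟩ := hx
      obtain ⟨t, ht⟩ := ext_isPow hj (hξ i) (hξ' i) hm
      rw [map_smul, smul_eq_mul, ← ht]
      exact lamT_isPow _ q a t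
    | zero => rw [map_zero, map_zero]; exact isPow_zero p q
    | add x y _ _ hx hy => rw [map_add, map_add]; exact isPow_add p hx hy
    | neg x _ hx => rw [map_neg, map_neg]; exact hx.neg

end Cov

end FR
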