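import Pool.Agent.Lib.FR.Basic

set_option autoImplicit false

namespace FR

open Finset FD

section Grading

variable {p : ℕ} [hp : Fact p.Prime] {k : Type*} [CommRing k] [CharP k p] {n : ℕ}
  {V : Type*} [AddCommGroup V] [Module (Torus k n) V] (S : FDiv p (Torus k n) V)

/-- the projection of `V` to its part of degree `c` modulo `p^q` -/
noncomputable def P (q : ℕ) (c : Fin n → ℤ) : V →+ V :=
  Classical.choose (exists_induced S q (proj k p q c) (proj_pow_mul p q c))

theorem P_smul (q : ℕ) (c : Fin n → ℤ) (f : Torus k n) {m : V} (hm : m ∈ S.F q) :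
    P S q c (f • m) = proj k p q c f • m :=
  Classical.choose_spec (exists_induced S q (proj k p q c) (proj_pow_mul p q c)) f m hm

theorem P_mon_smul (q : ℕ) (c a : Fin n → ℤ) (v : V) :
    P S q c (mon k a • v) = mon k a • P S q (c - a) v := by
  induction v using induction_level S q with
  | h0 => simp
  | hadd x y hx hy => rw [smul_add, map_add, hx, hy, map_add, smul_add]
  | hsmul f m hm => rw [smul_smul, P_smul S q c _ hm, proj_mon_mul, P_smul S q _ _ hm, mul_smul]

theorem P_scalar_smul (q : ℕ) (c : Fin n → ℤ) (r : k) (v : V) :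
    P S q c (algebraMap k (Torus k n) r • v) = algebraMap k (Torus k n) r • P S q c v := by
  induction v using induction_level S q with
  | h0 => simp
  | hadd x y hx hy => rw [smul_add, map_add, hx, hy, map_add, smul_add]
  | hsmul f m hm => rw [smul_smul, P_smul S q c _ hm, proj_scalar_mul, P_smul S q _ _ hm, mul_smul]

omit hp [CharP k p] in
open scoped Classical in
theorem proj_proj {q r : ℕ} (h : q ≤ r) (c d : Fin n → ℤ) (f : Torus k n) :
    proj k p q c (proj k p r d f) = if Cong p q d c then proj k p r d f else 0 := by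
  ext a
  rw [coeff_proj, coeff_proj]
  by_cases h1 : Cong p r a d
  · have h2 : Cong p q a c ↔ Cong p q d c :=
      ⟨fun h' => (h1.mono h).symm.trans h', fun h' => (h1.mono h).trans h'⟩
    rw [h2]
    split_ifs <;> simp [coeff_proj, h1]
  · split_ifs <;> simp [coeff_proj, h1]

omit hp [CharP k p] in
open scoped Classical in
theorem proj_proj' {q r : ℕ} (h : q ≤ r) (c d : Fin n → ℤ) (f : Torus k n) :
    proj k p r d (proj k p q c f) = if Cong p q d c then proj k p r d f else 0 := by
  ext a
  rw [coeff_proj, coeff_proj]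
  by_cases h1 : Cong p r a d
  · have h2 : Cong p q a c ↔ Cong p q d c :=
      ⟨fun h' => (h1.mono h).symm.trans h', fun h' => (h1.mono h).trans h'⟩
    rw [h2]
    split_ifs <;> simp [coeff_proj, h1]
  · split_ifs <;> simp [coeff_proj, h1]

open scoped Classical in
theorem P_P {q r : ℕ} (h : q ≤ r) (c d : Fin n → ℤ) (v : V) :
    P S q c (P S r d v) = if Cong p q d c then P S r d v else 0 := by
  induction v using induction_level S r with
  | h0 => simp
  | hadd x y hx hy =>
    rw [map_add, map_add, hx, hy]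
    split_ifs <;> simp
  | hsmul f m hm =>
    rw [P_smul S r d f hm, P_smul S q c _ (S.anti_le h hm), proj_proj h]
    split_ifs <;> simp

open scoped Classical in
theorem P_P' {q r : ℕ} (h : q ≤ r) (c d : Fin n → ℤ) (v : V) :
    P S r d (P S q c v) = if Cong p q d c then P S r d v else 0 := by
  induction v using induction_level S r with
  | h0 => simp
  | hadd x y hx hy =>
    rw [map_add, map_add, map_add, hx, hy]
    split_ifs <;> simp
  | hsmul f m hm =>
    rw [P_smul S r d f hm, P_smul S q c _ (S.anti_le h hm), P_smul S r d _ hm, proj_proj' h]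
    split_ifs <;> simp

theorem P_comm (q r : ℕ) (c d : Fin n → ℤ) (v : V) :
    P S q c (P S r d v) = P S r d (P S q c v) := by
  rcases le_total q r with h | h
  · rw [P_P S h, P_P' S h]
  · rw [P_P S h, P_P' S h]

theorem P_idem (q : ℕ) (c : Fin n → ℤ) (v : V) : P S q c (P S q c v) = P S q c v := by
  classical
  rw [P_P S le_rfl, if_pos (Cong.refl p q c)]

/-- representatives of the exponents modulo `p^q` -/
noncomputable def reps (p : ℕ) (n q : ℕ) : Finset (Fin n → ℤ) :=
  Fintype.piFinset fun _ => Finset.Ico (0 : ℤ) ((p : ℤ) ^ q)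

omit [CharP k p] in
theorem sum_proj (q : ℕ) (f : Torus k n) : ∑ c ∈ reps p n q, proj k p q c f = f := by
  classical
  ext a
  rw [AddMonoidAlgebra.coeff_sum, Finsupp.finsetSum_apply]
  simp only [coeff_proj]
  have hpos : (0 : ℤ) < (p : ℤ) ^ q := pow_pos (by exact_mod_cast hp.out.pos) q
  rw [Finset.sum_eq_single (fun i => a i % ((p : ℤ) ^ q))]
  · rw [if_pos]
    intro i
    exact Int.dvd_self_sub_emod
  · intro c hc hne
    rw [if_neg]
    intro hcong
    apply hne
    funext i
    have hci := Finset.mem_Ico.mp (Fintype.mem_piFinset.mp hc i)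
    have h1 := hcong i
    have h2 : a i % ((p : ℤ) ^ q) = c i % ((p : ℤ) ^ q) :=
      (Int.modEq_iff_dvd.mpr h1).symm
    rw [h2, Int.emod_eq_of_lt hci.1 hci.2]
  · intro hno
    exfalso
    apply hno
    rw [reps, Fintype.mem_piFinset]
    intro i
    rw [Finset.mem_Ico]
    exact ⟨Int.emod_nonneg _ hpos.ne', Int.emod_lt_of_pos _ hpos⟩

theorem sum_P (q : ℕ) (v : V) : ∑ c ∈ reps p n q, P S q c v = v := by
  induction v using induction_level S q with
  | h0 => simp
  | hadd x y hx hy =>
    simp only [map_add, Finset.sum_add_distrib, hx, hy]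
  | hsmul f m hm =>
    have : ∀ c, P S q c (f • m) = proj k p q c f • m := fun c => P_smul S q c f hm
    simp only [this]
    rw [← Finset.sum_smul, sum_proj]

omit hp [CharP k p] in
theorem proj_mon (q : ℕ) (c : Fin n → ℤ) : proj k p q c (mon k c) = mon k c := by
  have h := proj_mon_mul (k := k) p q c c 1
  rw [mul_one, sub_self, proj_zero_one, mul_one] at h
  exact h

theorem P_eq_of_mem (q : ℕ) (c : Fin n → ℤ) {m : V} (hm : m ∈ S.F q) :
    P S q c (mon k c • m) = mon k c • m := by
  rw [P_smul S q c _ hm, proj_mon]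

theorem P_zero_of_mem (q : ℕ) {m : V} (hm : m ∈ S.F q) : P S q 0 m = m := by
  have h := P_eq_of_mem S q 0 hm
  rwa [mon_zero, one_smul] at h

/-- the relative F-divided structure: the span over the base ring of `F q` -/
def Gq (q : ℕ) : AddSubgroup V :=
  AddSubgroup.closure {x | ∃ (r : k) (m : V), m ∈ S.F q ∧ x = algebraMap k (Torus k n) r • m}

theorem smul_mem_Gq {q : ℕ} (r : k) {v : V} (hv : v ∈ Gq S q) :
    algebraMap k (Torus k n) r • v ∈ Gq S q := by
  unfold Gq at hv ⊢
  induction hv using AddSubgroup.closure_induction with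
  | mem x hx =>
    obtain ⟨s, m, hm, rfl⟩ := hx
    exact AddSubgroup.subset_closure ⟨r * s, m, hm, by rw [map_mul, mul_smul]⟩
  | zero => rw [smul_zero]; exact zero_mem _
  | add x y _ _ hx hy => rw [smul_add]; exact add_mem hx hy
  | neg x _ hx => rw [smul_neg]; exact neg_mem hx

theorem P_eq_of_mem_Gq {q : ℕ} {v : V} (hv : v ∈ Gq S q) : P S q 0 v = v := by
  unfold Gq at hv
  induction hv using AddSubgroup.closure_induction with
  | mem x hx =>
    obtain ⟨r, m, hm, rfl⟩ := hx
    rw [P_scalar_smul, P_zero_of_mem S q hm]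
  | zero => rw [map_zero]
  | add x y _ _ hx hy => rw [map_add, hx, hy]
  | neg x _ hx => rw [map_neg, hx]

theorem smul_mem_Gq_of_proj {q : ℕ} {f : Torus k n} (h : proj k p q 0 f = f) {m : V}
    (hm : m ∈ S.F q) : f • m ∈ Gq S q := by
  classical
  have h1 : ∀ s : Finset (Fin n → ℤ),
      (∑ a ∈ s, AddMonoidAlgebra.single a ((proj k p q 0 f).coeff a) : Torus k n) • m
        ∈ Gq S q := by
    intro s
    induction s using Finset.induction_on with
    | empty => simp
    | insert a s ha ih =>
      rw [Finset.sum_insert ha, add_smul]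
      refine add_mem ?_ ih
      rw [coeff_proj]
      split_ifs with hc
      · choose b hb using hc
        have h2 : a = (p ^ q) • b := by
          funext i
          have := hb i
          simp only [Pi.zero_apply, sub_zero] at this
          rw [this, Pi.smul_apply, nsmul_eq_mul]
          push_cast
          ring
        rw [single_eq, mul_smul]
        refine AddSubgroup.subset_closure ⟨_, mon k a • m, ?_, rfl⟩
        rw [h2, ← mon_pow]
        exact S.pow_smul q _ _ hm
      · rw [AddMonoidAlgebra.single_zero, zero_smul]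
        exact zero_mem _
  have h2 := h1 (proj k p q 0 f).coeff.support
  have h3 := AddMonoidAlgebra.sum_coeff_single (proj k p q 0 f)
  rw [Finsupp.sum] at h3
  rw [h3, h] at h2
  exact h2

theorem mem_Gq_of_P {q : ℕ} {v : V} (h : P S q 0 v = v) : v ∈ Gq S q := by
  classical
  obtain ⟨d, e, ξ, he, hξ, hsum⟩ := S.dual q
  rw [← h, ← hsum v, map_sum]
  apply AddSubgroup.sum_mem
  intro i _
  rw [P_smul S q 0 _ (he i)]
  exact smul_mem_Gq_of_proj S (by rw [proj_proj le_rfl, if_pos (Cong.refl p q 0)]) (he i)

theorem exists_of_P {q : ℕ} {c : Fin n → ℤ} {v : V} (h : P S q c v = v) :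
    ∃ m ∈ Gq S q, v = mon k c • m := by
  refine ⟨mon k (-c) • v, ?_, ?_⟩
  · apply mem_Gq_of_P
    rw [P_mon_smul, sub_neg_eq_add, zero_add, h]
  · rw [smul_smul, mon_mul_mon, add_neg_cancel, mon_zero, one_smul]

end Grading

section Span

variable {p : ℕ} [hp : Fact p.Prime] {k : Type*} [CommRing k] [CharP k p] {n : ℕ}
  {V : Type*} [AddCommGroup V] [Module (Torus k n) V] (S : FDiv p (Torus k n) V)

/-- the homogeneous elements of degree `γ` (a point of `Z_p^n`, given by a sequence) -/
def Vg (γ : ℕ → Fin n → ℤ) : Set V := {v | ∀ q, P S q (γ q) v = v}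

variable [Module k V] [IsScalarTower k (Torus k n) V]

theorem P_ksmul (q : ℕ) (c : Fin n → ℤ) (r : k) (v : V) :
    P S q c (r • v) = r • P S q c v := by
  rw [← algebraMap_smul (Torus k n) r v, P_scalar_smul, algebraMap_smul]

/-- `P` as a `k`-linear map -/
noncomputable def Pk (q : ℕ) (c : Fin n → ℤ) : V →ₗ[k] V where
  toFun := P S q c
  map_add' := map_add _
  map_smul' := fun r v => P_ksmul S q c r v

/-- A finitely generated submodule (over a Noetherian ring) that is stable under the projections
is spanned by its homogeneous elements. -/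
theorem decomp [IsNoetherianRing k] (W : Submodule k V) (hfg : W.FG)
    (hst : ∀ q c, ∀ w ∈ W, P S q c w ∈ W) : W ≤ Submodule.span k (⋃ γ, Vg S γ) := by
  classical
  by_contra hnot
  have hN : IsNoetherian k W := isNoetherian_of_fg_of_noetherian W hfg
  -- the complements of the bad stable summands
  let Bad : Set (Submodule k W) := {C | ∃ W' : Submodule k V, W' ≤ W ∧
    (∀ q c, ∀ w ∈ W', P S q c w ∈ W') ∧ ¬ W' ≤ Submodule.span k (⋃ γ, Vg S γ) ∧
    Disjoint (C.map W.subtype) W'}
  have hne : Bad.Nonempty := ⟨⊥, W, le_rfl, hst, hnot, by rw [Submodule.map_bot]; exact disjoint_bot_left⟩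
  obtain ⟨C, hC, hmax⟩ := (wellFounded_gt (α := Submodule k W)).has_min Bad hne
  obtain ⟨W', hle, hst', hnot', hdis⟩ := hC
  -- `W'` is split at some level
  have hA : ¬ ∀ q, ∃ c : Fin n → ℤ, ∀ w ∈ W', P S q c w = w := by
    intro hA
    choose γ hγ using hA
    exact hnot' fun w hw => Submodule.subset_span (Set.mem_iUnion.mpr ⟨γ, fun q => hγ q w hw⟩)
  push Not at hA
  obtain ⟨q, hq⟩ := hA
  -- one of the summands is bad
  have hex : ∃ c, ¬ W'.map (Pk S q c) ≤ Submodule.span k (⋃ γ, Vg S γ) := by
    by_contra hall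
    push Not at hall
    apply hnot'
    intro w hw
    rw [← sum_P S q w]
    exact Submodule.sum_mem _ fun c _ => hall c ⟨w, hw, rfl⟩
  obtain ⟨c, hc⟩ := hex
  have hlec : W'.map (Pk S q c) ≤ W' := by
    rintro _ ⟨x, hx, rfl⟩
    exact hst' q c x hx
  -- the complementary summand
  let D : Submodule k V := W' ⊓ LinearMap.ker (Pk S q c)
  have hDne : D ≠ ⊥ := by
    intro hD
    obtain ⟨x, hx, hxne⟩ := hq c
    have h1 : x - P S q c x ∈ D := by
      refine ⟨W'.sub_mem hx (hst' q c x hx), ?_⟩
      show P S q c (x - P S q c x) = 0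
      rw [map_sub, P_idem, sub_self]
    rw [hD, Submodule.mem_bot] at h1
    exact hxne (sub_eq_zero.mp h1).symm
  let C' : Submodule k W := C ⊔ D.comap W.subtype
  have hDmap : (D.comap W.subtype).map W.subtype = D := by
    rw [Submodule.map_comap_subtype]
    exact inf_eq_right.mpr (inf_le_left.trans hle)
  have hC'map : C'.map W.subtype = C.map W.subtype ⊔ D := by
    rw [Submodule.map_sup, hDmap]
  have hlt : C < C' := by
    refine lt_of_le_of_ne le_sup_left ?_
    intro heq
    apply hDne
    have h1 : D ≤ C.map W.subtype := by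
      rw [heq, hC'map]
      exact le_sup_right
    exact le_bot_iff.mp (hdis h1 (inf_le_left))
  refine hmax C' ⟨W'.map (Pk S q c), hlec.trans hle, ?_, hc, ?_⟩ hlt
  · rintro r e _ ⟨x, hx, rfl⟩
    refine ⟨P S r e x, hst' r e x hx, ?_⟩
    exact P_comm S q r c e x
  · rw [hC'map, Submodule.disjoint_def]
    rintro x hx ⟨y, hy, rfl⟩
    obtain ⟨a, ha, b, hb, hab⟩ := Submodule.mem_sup.mp hx
    have hPy : P S q c y ∈ W' := hst' q c y hy
    have h1 : a ∈ W' := by
      have : a = Pk S q c y - b := by rw [← hab, add_sub_cancel_right]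
      rw [this]
      exact W'.sub_mem hPy hb.1
    have h2 : a = 0 := (Submodule.disjoint_def.mp hdis) a ha h1
    rw [h2, zero_add] at hab
    have h3 : Pk S q c b = 0 := LinearMap.mem_ker.mp hb.2
    have h4 : Pk S q c (Pk S q c y) = Pk S q c y := P_idem S q c y
    rw [← hab, h3] at h4
    rw [← hab, ← h4]

end Span

end FR
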