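import Pool.Agent.Lib.FR.Struct

/-!
# The F-divided structure on `E`
-/

set_option autoImplicit false

namespace FR

open Finset FD

section St

variable {p : ℕ} [hp : Fact p.Prime] {A : Type*} [CommRing A] [CharP A p] {n : ℕ}
  {V : Type*} [AddCommGroup V] [Module (Torus A n) V] (T : FDiv p (Torus A n) V)

omit hp [CharP A p] in
open scoped Classical in
theorem proj_of_mon (q : ℕ) (c a : Fin n → ℤ) :
    proj A p q c (mon A a) = if Cong p q a c then mon A a else 0 := by
  ext b
  rw [coeff_proj, mon, AddMonoidAlgebra.coeff_single]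
  by_cases hab : a = b
  · subst hab
    split_ifs <;> simp
  · split_ifs <;> simp [hab]

theorem proj_isPow {q r : ℕ} (c : Fin n → ℤ) (f : Torus A n) :
    IsPow p q (proj A p r c (f ^ p ^ q)) := by
  classical
  induction f using torus_induction with
  | h0 =>
    rw [zero_pow (pow_ne_zero _ hp.out.ne_zero), map_zero]
    exact isPow_zero p q
  | hadd x y hx hy =>
    rw [add_pow_char_pow, map_add]
    exact isPow_add p hx hy
  | hmon s a =>
    rw [mul_pow, mon_pow, ← map_pow, proj_scalar_mul, proj_of_mon]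
    split_ifs
    · exact ⟨algebraMap A (Torus A n) s * mon A a, by rw [mul_pow, mon_pow, ← map_pow]⟩
    · rw [mul_zero]; exact isPow_zero p q

omit [CharP A p] in
theorem gen_iter {R M : Type*} [CommRing R] [AddCommGroup M] [Module R M] (S : FDiv p R M)
    {q r : ℕ} (h : q ≤ r) {v : M} (hv : v ∈ S.F q) :
    v ∈ AddSubgroup.closure {x | ∃ (c : R) (w : M), w ∈ S.F r ∧ x = c ^ p ^ q • w} := by
  induction r, h using Nat.le_induction with
  | base => exact AddSubgroup.subset_closure ⟨1, v, hv, by rw [one_pow, one_smul]⟩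
  | succ r hqr ih =>
    refine AddSubgroup.closure_induction (fun x hx => ?_) (zero_mem _)
      (fun x y _ _ hx hy => add_mem hx hy) (fun x _ hx => neg_mem hx) ih
    obtain ⟨c, w, hw, rfl⟩ := hx
    refine AddSubgroup.closure_induction
      (p := fun w _ => c ^ p ^ q • w ∈ AddSubgroup.closure {x | ∃ (c : R) (w : M),
        w ∈ S.F (r + 1) ∧ x = c ^ p ^ q • w}) (fun x hx => ?_) (by rw [smul_zero]; exact zero_mem _)
      (fun x y _ _ hx hy => by rw [smul_add]; exact add_mem hx hy)
      (fun x _ hx => by rw [smul_neg]; exact neg_mem hx) (S.gen r w hw)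
    obtain ⟨d, w', hw', rfl⟩ := hx
    exact AddSubgroup.subset_closure ⟨c * d ^ p ^ (r - q), w', hw', by
      rw [smul_smul, mul_pow, ← pow_mul, ← pow_add, Nat.sub_add_cancel hqr]⟩

theorem P_mem {q r : ℕ} (h : q ≤ r) (c : Fin n → ℤ) {v : V} (hv : v ∈ T.F q) :
    P T r c v ∈ T.F q := by
  refine AddSubgroup.closure_induction (p := fun v _ => P T r c v ∈ T.F q)
    (fun x hx => ?_) (by rw [map_zero]; exact zero_mem _)
      (fun x y _ _ hx hy => by rw [map_add]; exact add_mem hx hy)
      (fun x _ hx => by rw [map_neg]; exact neg_mem hx) (gen_iter T h hv)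
  obtain ⟨f, w, hw, rfl⟩ := hx
  obtain ⟨d, hd⟩ := proj_isPow (p := p) (q := q) (r := r) c f
  rw [P_smul T r c _ hw, ← hd]
  exact T.pow_smul q d w (T.anti_le h hw)

end St

section Co

variable {p : ℕ} [hp : Fact p.Prime] {k A : Type*} [Field k] [CommRing A] [Algebra k A]
  [CharP A p] {n : ℕ} {V : Type*} [AddCommGroup V] [Module (Torus A n) V]
  {T : FDiv p (Torus A n) V} {E : Type*}
  [AddCommGroup E] [Module A E] [Module k E] [IsScalarTower k A E] (G : Gr k A T E)

theorem comp_supp {q : ℕ} {v : V} (hv : v ∈ T.F q) {a : Fin n → ℤ}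
    (ha : G.comp v a ≠ 0) : ∃ b, a = p ^ q • b := by
  classical
  have hc : Cong p q a 0 := by
    by_contra hc
    have h1 : ∀ w : V, G.comp (P T q 0 w) a = 0 := by
      intro w
      induction w using G.ind with
      | h0 => simp
      | hadd x y hx hy => rw [map_add, map_add, Finsupp.add_apply, hx, hy, add_zero]
      | hmon b e =>
        rw [P_mon_j T G.j (fun e q => G.zero e q)]
        split_ifs with h
        · rw [G.comp_mon, Finsupp.single_apply, if_neg]
          rintro rfl
          exact hc h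
        · rw [map_zero, Finsupp.zero_apply]
    exact ha (by rw [← P_zero_of_mem T q hv, h1])
  choose b hb using fun i => hc i
  refine ⟨b, ?_⟩
  funext i
  have := hb i
  rw [Pi.zero_apply, sub_zero] at this
  rw [this, Pi.smul_apply, nsmul_eq_mul, Nat.cast_pow]

theorem comp_mem {q : ℕ} {v : V} (hv : v ∈ T.F q) (a : Fin n → ℤ) :
    G.j (G.comp v a) ∈ T.F q := by
  classical
  by_cases ha : G.comp v a = 0
  · rw [ha, map_zero]; exact zero_mem _
  obtain ⟨b, hb⟩ := comp_supp G hv ha
  obtain ⟨q₀, hq₀⟩ := exists_sep p (insert a (G.comp v).support)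
  have h1 := P_Phi T G.j (fun e q => G.zero e q) (q := max q q₀) (a := a) (G.comp v)
    (fun x hx hc => hq₀ x (Finset.mem_insert_of_mem hx) a (Finset.mem_insert_self _ _)
      (hc.mono (le_max_right _ _)))
  rw [G.Phi_comp] at h1
  have h2 : mon A a • G.j (G.comp v a) ∈ T.F q := by
    rw [← h1]
    exact P_mem T (le_max_left _ _) a hv
  have h3 := T.pow_smul q (mon A (-b)) _ h2
  rw [mon_pow, smul_smul, mon_mul_mon, hb, smul_neg, neg_add_cancel, mon_zero, one_smul,
    ← hb] at h3
  exact h3

theorem rV_eq (v : V) : G.rV v = ∑ a ∈ (G.comp v).support, G.comp v a := by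
  conv_lhs => rw [G.eq_sum v, map_sum]
  simp only [G.rV_mon]

theorem rV_mem {q : ℕ} {v : V} (hv : v ∈ T.F q) : G.j (G.rV v) ∈ T.F q := by
  rw [rV_eq, map_sum]
  exact AddSubgroup.sum_mem _ fun a _ => comp_mem G hv a

end Co

section SE

variable {p : ℕ} [hp : Fact p.Prime] {k A B R : Type*} {n : ℕ} [Field k] [CharP k p]
    [IsAlgClosed k] [CommRing A] [Algebra k A] [CharP A p] [IsReduced A]
    [CommRing B] [IsDomain B]
    [Algebra k B] [Algebra B (Torus k n)] [IsScalarTower k B (Torus k n)] [CommRing R]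
    [Algebra A R] [Algebra B R] [Algebra R (Torus A n)] (D : Data k A B R n)
    (hZ : Chart B (Torus k n))
    {M : Type*} [AddCommGroup M] [Module R M] [Module B M] [IsScalarTower B R M]
    [Module A M] [IsScalarTower A R M]
    {S : FDiv p R M} {V : Type*} [AddCommGroup V]
    [Module (Torus A n) V] [Module R V] [IsScalarTower R (Torus A n) V]
    {T : FDiv p (Torus A n) V} {j : M →ₗ[R] V} (hj : IsPull S T j)
    {E : Type*} [AddCommGroup E] [Module A E] [Module k E] [IsScalarTower k A E]
    (ι : E →ₗ[A] M) (G : Gr k A T E) (hG : ∀ e, G.j e = j (ι e))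

include D hZ hj hG

theorem rV_mem_S {q : ℕ} {m : M} (hm : m ∈ S.F q) : ι (G.rV (j m)) ∈ S.F q := by
  apply mem_of_refl hj (fun r hr => refl_pow D hZ hr)
  rw [← hG]
  apply rV_mem G
  rw [hj.2 q]
  exact AddSubgroup.subset_closure ⟨1, m, hm, by rw [one_pow, one_smul]⟩

theorem comp_mem_S {q : ℕ} {m : M} (hm : m ∈ S.F q) (a : Fin n → ℤ) :
    ι (G.comp (j m) a) ∈ S.F q := by
  apply mem_of_refl hj (fun r hr => refl_pow D hZ hr)
  rw [← hG]
  apply comp_mem G
  rw [hj.2 q]
  exact AddSubgroup.subset_closure ⟨1, m, hm, by rw [one_pow, one_smul]⟩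

/-- the F-divided structure on `E` -/
theorem exists_SE : ∃ SE : FDiv p A E, ∀ q e, e ∈ SE.F q ↔ ι e ∈ S.F q := by
  have hrVj : ∀ e, G.rV (j (ι e)) = e := fun e => by rw [← hG, G.rV_j]
  have hrV : ∀ (c : R) (m : M), G.rV (j (c • m))
      = Gr.rho A n (algebraMap R (Torus A n) c) • G.rV (j m) := by
    intro c m
    rw [map_smul, ← algebraMap_smul (Torus A n) c (j m), G.rV_smul]
  refine ⟨
    { F := fun q => (S.F q).comap ι.toAddMonoidHom
      zero := ?_
      anti := ?_
      pow_smul := ?_
      dual := ?_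
      gen := ?_ }, fun q e => Iff.rfl⟩
  · rw [S.zero]; rfl
  · intro q e he
    exact S.anti q he
  · intro q c e he
    show ι (c ^ p ^ q • e) ∈ S.F q
    rw [map_smul, ← algebraMap_smul R (c ^ p ^ q) (ι e), map_pow]
    exact S.pow_smul q _ _ he
  · intro q
    obtain ⟨d, e, ξ, he, hξ, hsum⟩ := S.dual q
    refine ⟨d, fun i => G.rV (j (e i)), fun i =>
      { toFun := fun x => Gr.rho A n (algebraMap R (Torus A n) (ξ i (ι x)))
        map_add' := fun x y => by rw [map_add, map_add, map_add, map_add]
        map_smul' := fun a x => by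
          rw [map_smul, ← algebraMap_smul R a (ι x), map_smul, smul_eq_mul, map_mul, D.hA, map_mul,
            AlgHom.commutes]
          rfl }, ?_, ?_, ?_⟩
    · intro i
      exact rV_mem_S D hZ hj ι G hG (he i)
    · intro i m hm
      obtain ⟨c, hc⟩ := hξ i (ι m) hm
      exact ⟨Gr.rho A n (algebraMap R (Torus A n) c), by
        show _ = Gr.rho A n (algebraMap R (Torus A n) (ξ i (ι m)))
        rw [← hc, map_pow, map_pow]⟩
    · intro m
      show ∑ i, Gr.rho A n (algebraMap R (Torus A n) (ξ i (ι m))) • G.rV (j (e i)) = m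
      conv_rhs => rw [← hrVj m, ← hsum (ι m), map_sum, map_sum]
      apply Finset.sum_congr rfl
      intro i _
      rw [hrV]
  · intro q m hm
    have h1 : ∀ x ∈ AddSubgroup.closure {x | ∃ (c : R) (m' : M), m' ∈ S.F (q + 1) ∧
        x = c ^ p ^ q • m'}, G.rV (j x) ∈ AddSubgroup.closure {x | ∃ (c : A) (m' : E),
        m' ∈ (S.F (q + 1)).comap ι.toAddMonoidHom ∧ x = c ^ p ^ q • m'} := by
      intro x hx
      induction hx using AddSubgroup.closure_induction with
      | mem x hx =>
        obtain ⟨c, m', hm', rfl⟩ := hx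
        exact AddSubgroup.subset_closure ⟨Gr.rho A n (algebraMap R (Torus A n) c), G.rV (j m'),
          rV_mem_S D hZ hj ι G hG hm', by rw [hrV, map_pow, map_pow]⟩
      | zero => rw [map_zero, map_zero]; exact zero_mem _
      | add x y _ _ hx hy => rw [map_add, map_add]; exact add_mem hx hy
      | neg x _ hx => rw [map_neg, map_neg]; exact neg_mem hx
    have h2 := h1 (ι m) (S.gen q (ι m) hm)
    rwa [hrVj] at h2

theorem isPull_E {SE : FDiv p A E} (hSE : ∀ q e, e ∈ SE.F q ↔ ι e ∈ S.F q) :
    IsPull SE S ι := by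
  have hbc := isBaseChange_E D hZ hj ι G hG
  refine ⟨hbc, fun q => le_antisymm ?_ ?_⟩
  · intro m hm
    obtain ⟨d, e, ξ, he, hξ, hsum⟩ := SE.dual q
    choose ξ' hξ' using fun i => exists_ext hbc (ξ i)
    have h1 : ∑ i, ξ' i m • ι (e i) = m := by
      have h2 : (∑ i, (LinearMap.toSpanSingleton R M (ι (e i))).comp (ξ' i)) = LinearMap.id := by
        apply hbc.algHom_ext
        intro x
        rw [LinearMap.sum_apply, LinearMap.id_apply]
        conv_rhs => rw [← hsum x, map_sum]
        apply Finset.sum_congr rfl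
        intro i _
        rw [LinearMap.comp_apply, LinearMap.toSpanSingleton_apply, hξ', algebraMap_smul, map_smul]
      have h3 := LinearMap.congr_fun h2 m
      rw [LinearMap.sum_apply] at h3
      simpa using h3
    rw [← h1]
    apply AddSubgroup.sum_mem
    intro i _
    have h2 : IsPow p q (ξ' i m) := by
      apply refl_pow D hZ
      obtain ⟨ξ'', hξ''⟩ := exists_ext hj.1 (ξ' i)
      rw [← hξ'', G.eq_sum (j m), map_sum]
      have : ∀ s : Finset (Fin n → ℤ), s ⊆ (G.comp (j m)).support →
          IsPow p q (∑ a ∈ s, ξ'' (mon A a • G.j (G.comp (j m) a))) := by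
        classical
        intro s
        induction s using Finset.induction_on with
        | empty => intro _; rw [Finset.sum_empty]; exact isPow_zero p q
        | insert a s ha ih =>
          intro hs
          rw [Finset.sum_insert ha]
          refine isPow_add p ?_ (ih (fun b hb => hs (Finset.mem_insert_of_mem hb)))
          have hjm : j m ∈ T.F q := by
            rw [hj.2 q]
            exact AddSubgroup.subset_closure ⟨1, m, hm, by rw [one_pow, one_smul]⟩
          obtain ⟨b, hb⟩ := comp_supp G hjm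
            (Finsupp.mem_support_iff.mp (hs (Finset.mem_insert_self a s)))
          have h3 : G.comp (j m) a ∈ SE.F q := by
            rw [hSE]; exact comp_mem_S D hZ hj ι G hG hm a
          obtain ⟨c, hc⟩ := hξ i _ h3
          refine ⟨mon A b * algebraMap A (Torus A n) c, ?_⟩
          rw [map_smul, hG, hξ'', hξ', ← hc, mul_pow, mon_pow, ← hb, D.hA, smul_eq_mul, map_pow]
      exact this _ (Finset.Subset.refl _)
    obtain ⟨c, hc⟩ := h2
    exact AddSubgroup.subset_closure ⟨c, e i, he i, by rw [hc]⟩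
  · rw [AddSubgroup.closure_le]
    rintro _ ⟨c, e, he, rfl⟩
    exact S.pow_smul q c _ ((hSE q e).mp he)

end SE

end FR
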