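import Pool.Agent.Lib.FR.Coord

/-!
# Extension of linear forms to pull-backs
-/

set_option autoImplicit false

namespace FR

open Finset FD

section Gen

variable {p : ℕ} [hp : Fact p.Prime] {R R' M V : Type*} [CommRing R] [CommRing R'] [CharP R' p]
  [Algebra R R'] [AddCommGroup M] [Module R M] [AddCommGroup V] [Module R' V] [Module R V]
  [IsScalarTower R R' V] {S : FDiv p R M} {T : FDiv p R' V} {j : M →ₗ[R] V}

omit hp [CharP R' p] in
/-- extension of linear forms -/
theorem exists_ext (hj : IsBaseChange R' j) (ξ : M →ₗ[R] R) :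
    ∃ ξ' : V →ₗ[R'] R', ∀ m, ξ' (j m) = algebraMap R R' (ξ m) :=
  ⟨hj.lift ((Algebra.linearMap R R').comp ξ), fun m => by
    rw [hj.lift_eq]; rfl⟩

theorem ext_isPow (hj : IsPull S T j) {q : ℕ} {ξ : M →ₗ[R] R} (hξ : ∀ m ∈ S.F q, IsPow p q (ξ m))
    {ξ' : V →ₗ[R'] R'} (hξ' : ∀ m, ξ' (j m) = algebraMap R R' (ξ m)) {v : V} (hv : v ∈ T.F q) :
    IsPow p q (ξ' v) := by
  rw [hj.2 q] at hv
  induction hv using AddSubgroup.closure_induction with
  | mem x hx =>
    obtain ⟨c, m, hm, rfl⟩ := hx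
    obtain ⟨d, hd⟩ := hξ m hm
    exact ⟨c * algebraMap R R' d, by
      rw [map_smul, hξ', smul_eq_mul, mul_pow, ← map_pow, hd]⟩
  | zero => rw [map_zero]; exact ⟨0, zero_pow (pow_ne_zero _ hp.out.ne_zero)⟩
  | add x y _ _ hx hy => rw [map_add]; exact isPow_add p hx hy
  | neg x _ hx =>
    obtain ⟨d, hd⟩ := hx
    have hneg : IsPow p q (-1 : R') := by
      refine ⟨-1, ?_⟩
      rcases hp.out.eq_two_or_odd' with h2 | h2
      · have h3 : (-1 : R') = 1 := by
          have : (2 : R') = 0 := by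
            have := CharP.cast_eq_zero R' p
            rw [h2] at this
            exact_mod_cast this
          linear_combination -this
        rw [h3, one_pow]
      · exact Odd.neg_one_pow h2.pow
    obtain ⟨e, he⟩ := hneg
    exact ⟨e * d, by rw [map_neg, mul_pow, he, hd, neg_one_mul]⟩

theorem mem_of_coords {M : Type*} [AddCommGroup M] [Module R M] (S : FDiv p R M) {q d : ℕ}
    {e : Fin d → M} (he : ∀ i, e i ∈ S.F q)
    {c : Fin d → R} (hc : ∀ i, IsPow p q (c i)) : ∑ i, c i • e i ∈ S.F q := by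
  apply AddSubgroup.sum_mem
  intro i _
  obtain ⟨b, hb⟩ := hc i
  rw [← hb]
  exact S.pow_smul q b _ (he i)

theorem mem_of_refl (hj : IsPull S T j) {q : ℕ}
    (hrefl : ∀ r : R, IsPow p q (algebraMap R R' r) → IsPow p q r) {m : M}
    (h : j m ∈ T.F q) : m ∈ S.F q := by
  obtain ⟨d, e, ξ, he, hξ, hsum⟩ := S.dual q
  rw [← hsum m]
  apply mem_of_coords S he
  intro i
  obtain ⟨ξ', hξ'⟩ := exists_ext hj.1 (ξ i)
  apply hrefl
  rw [← hξ']
  exact ext_isPow hj (hξ i) hξ' h

end Gen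

end FR
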