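import Pool.Agent.Lib.FR.Pull

/-!
# Full faithfulness
-/

set_option autoImplicit false

namespace FR

open Finset FD

section Const

variable {p : ℕ} [hp : Fact p.Prime] {k B : Type*} {n : ℕ} [Field k] [CharP k p] [CommRing B]
    [Algebra k B] [Algebra B (Torus k n)] [IsScalarTower k B (Torus k n)]

/-- an element which is a `p^q`-th power for all `q` is a constant -/
theorem const_of_pow (hinj : Function.Injective (algebraMap B (Torus k n))) {b : B}
    (h : ∀ q, IsPow p q b) : ∃ c : k, algebraMap k B c = b := by
  obtain ⟨q, hq⟩ := FD.exists_separating (p := p) (algebraMap B (Torus k n) b) 0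
  refine ⟨(algebraMap B (Torus k n) b).coeff 0, hinj ?_⟩
  obtain ⟨c, hc⟩ := h q
  have h1 : IsPow p q (algebraMap B (Torus k n) b) := ⟨algebraMap B (Torus k n) c, by
    rw [← map_pow, hc]⟩
  have h2 := FD.proj_zero_of_isPow p h1
  rw [hq, FD.mon_zero, mul_one] at h2
  rw [← IsScalarTower.algebraMap_apply, h2]

end Const

section Co

variable {p : ℕ} [hp : Fact p.Prime] {k A B R : Type*} {n : ℕ} [Field k] [CharP k p]
    [IsAlgClosed k] [CommRing A] [Algebra k A] [CharP A p]
    [CommRing B] [CharP B p] [Algebra k B] [Algebra B (Torus k n)]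
    [IsScalarTower k B (Torus k n)] [CommRing R] [CharP R p]
    [Algebra A R] [Algebra B R] [Algebra R (Torus A n)] (D : Data k A B R n)
    {M : Type*} [AddCommGroup M] [Module R M]
    [Module A M] [IsScalarTower A R M]
    {E : Type*} [AddCommGroup E] [Module A E] [Module k E] [IsScalarTower k A E]
    {ι : E →ₗ[A] M} (hbc : IsBaseChange R ι)

/-- `a ↦ l (a e)` -/
noncomputable def le (l : E →ₗ[k] k) (e : E) : A →ₗ[k] k where
  toFun a := l (a • e)
  map_add' a b := by rw [add_smul, map_add]
  map_smul' c a := by rw [smul_assoc, map_smul]; rfl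

include D hbc in
omit hp [CharP k p] [IsAlgClosed k] [CharP A p] [CharP B p] [CharP R p]
  [IsScalarTower k B (Torus k n)] in
/-- extension of `k`-linear forms on `E` to `M` -/
theorem exists_L (l : E →ₗ[k] k) : ∃ L : M →+ B, ∀ (r : R) (e : E),
    L (r • ι e) = lamR D (le (A := A) l e) r := by
  let f : R →+ E →+ B :=
    { toFun := fun r =>
        { toFun := fun e => lamR D (le (A := A) l e) r
          map_zero' := by
            have h : le (A := A) l (0 : E) = 0 := by
              ext a; show l (a • 0) = 0; rw [smul_zero, map_zero]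
            rw [h, lamR]
            induction r using R_ind D with
            | h0 => rw [map_zero]
            | hadd x y hx hy => rw [map_add, hx, hy, add_zero]
            | hmul b a =>
              have := lamR_mul D (0 : A →ₗ[k] k) b a
              rw [lamR] at this
              rw [this, LinearMap.zero_apply, map_zero, mul_zero]
          map_add' := by
            intro x y
            induction r using R_ind D with
            | h0 => rw [map_zero, map_zero, map_zero, add_zero]
            | hadd r s hr hs =>
              rw [map_add, map_add, map_add, hr, hs]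
              abel
            | hmul b a =>
              rw [lamR_mul, lamR_mul, lamR_mul, ← mul_add, ← map_add]
              congr 2
              show l (a • (x + y)) = l (a • x) + l (a • y)
              rw [smul_add, map_add] }
      map_zero' := by
        ext e
        show lamR D (le (A := A) l e) 0 = 0
        rw [map_zero]
      map_add' := by
        intro r s
        ext e
        show lamR D (le (A := A) l e) (r + s) = _
        rw [map_add]
        rfl }
  have hf : ∀ (a : A) (r : R) (e : E), f (a • r) e = f r (a • e) := by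
    intro a r e
    show lamR D (le (A := A) l e) (a • r) = lamR D (le (A := A) l (a • e)) r
    induction r using R_ind D with
    | h0 => rw [smul_zero, map_zero, map_zero]
    | hadd r s hr hs => rw [smul_add, map_add, map_add, hr, hs]
    | hmul b a' =>
      have h1 : a • (algebraMap B R b * algebraMap A R a')
          = algebraMap B R b * algebraMap A R (a * a') := by
        rw [Algebra.smul_def, map_mul]; ring
      rw [h1, lamR_mul, lamR_mul]
      congr 2
      show l ((a * a') • e) = l (a' • a • e)
      rw [smul_smul, mul_comm]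
  refine ⟨(TensorProduct.liftAddHom f hf).comp hbc.equiv.symm.toLinearMap.toAddMonoidHom, ?_⟩
  intro r e
  show TensorProduct.liftAddHom f hf (hbc.equiv.symm (r • ι e)) = _
  have h1 : hbc.equiv.symm (r • ι e) = TensorProduct.tmul A r e := by
    rw [LinearEquiv.symm_apply_eq, hbc.equiv_tmul]
  rw [h1]
  rfl

include D hbc in
omit hp [CharP k p] [IsAlgClosed k] [CharP A p] [CharP B p] [CharP R p]
  [IsScalarTower k B (Torus k n)] in
/-- expansion of the elements of `M` -/
theorem M_expand {τ : Type*} (β : Module.Basis τ k E) (m : M) :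
    ∃ c : τ →₀ B, m = c.sum fun i b => algebraMap B R b • ι (β i) := by
  obtain ⟨x, hx⟩ := hbc.equiv.surjective m
  obtain ⟨c, rfl⟩ := exists_sum D β x
  refine ⟨c, ?_⟩
  rw [← hx, Finsupp.sum, Finsupp.sum, map_sum]
  apply Finset.sum_congr rfl
  intro i _
  rw [hbc.equiv_tmul]

include D hbc in
omit hp [CharP k p] [IsAlgClosed k] [CharP A p] [CharP B p] [CharP R p]
  [IsScalarTower k B (Torus k n)] in
theorem ι_inj (hB : Function.Injective (algebraMap k B)) : Function.Injective ι := by
  rw [injective_iff_map_eq_zero]
  intro e he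
  let β := Module.Basis.ofVectorSpace k E
  apply β.repr.injective
  ext i
  obtain ⟨L, hL⟩ := exists_L D hbc (β.coord i)
  have h1 := hL 1 e
  rw [he, smul_zero, map_zero] at h1
  have h2 := lamR_A D (le (A := A) (β.coord i) e) 1
  rw [map_one, ← h1] at h2
  have h3 : le (A := A) (β.coord i) e 1 = β.repr e i := by
    show β.coord i ((1 : A) • e) = _
    rw [one_smul]; rfl
  rw [h3] at h2
  rw [map_zero, Finsupp.zero_apply]
  exact hB (by rw [map_zero, ← h2])

variable {S₀ : FDiv p A E} {S : FDiv p R M} (h : IsPull S₀ S ι)

include D h in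
omit [CharP A p] [IsScalarTower k B (Torus k n)] [CharP k p] in
theorem L_isPow {l : E →ₗ[k] k} {L : M →+ B}
    (hL : ∀ (r : R) (e : E), L (r • ι e) = lamR D (le (A := A) l e) r) {q : ℕ} {m : M}
    (hm : m ∈ GA A S q) : IsPow p q (L m) := by
  have hneg : IsPow p q (-1 : B) := by
    refine ⟨-1, ?_⟩
    rcases hp.out.eq_two_or_odd' with h2 | h2
    · have h3 : (-1 : B) = 1 := by
        have : (2 : B) = 0 := by
          have := CharP.cast_eq_zero B p
          rw [h2] at this
          exact_mod_cast this
        linear_combination -this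
      rw [h3, one_pow]
    · exact Odd.neg_one_pow h2.pow
  obtain ⟨e', he'⟩ := hneg
  have hz : IsPow p q (0 : B) := ⟨0, zero_pow (pow_ne_zero _ hp.out.ne_zero)⟩
  have hn : ∀ x : B, IsPow p q x → IsPow p q (-x) := by
    rintro x ⟨d, hd⟩
    exact ⟨e' * d, by rw [mul_pow, he', hd, neg_one_mul]⟩
  refine AddSubgroup.closure_induction (p := fun m _ => IsPow p q (L m))
    (fun x hx => ?_) (by rw [map_zero]; exact hz)
    (fun x y _ _ hx hy => by rw [map_add]; exact isPow_add p hx hy)
    (fun x _ hx => by rw [map_neg]; exact hn _ hx) hm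
  obtain ⟨a, m, hm, rfl⟩ := hx
  rw [h.2 q] at hm
  refine AddSubgroup.closure_induction (p := fun m _ => IsPow p q (L (algebraMap A R a • m)))
    (fun x hx => ?_) (by rw [smul_zero, map_zero]; exact hz)
    (fun x y _ _ hx hy => by rw [smul_add, map_add]; exact isPow_add p hx hy)
    (fun x _ hx => by rw [smul_neg, map_neg]; exact hn _ hx) hm
  obtain ⟨c, e, he, rfl⟩ := hx
  rw [smul_smul, hL]
  exact lamR_isPow D _ q a c

include D h in
theorem emax (hinj : Function.Injective (algebraMap B (Torus k n))) (m : M) :
    (∀ q, m ∈ GA A S q) ↔ ∃ e, ι e = m := by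
  classical
  constructor
  · intro hm
    let β := Module.Basis.ofVectorSpace k E
    obtain ⟨c, hc⟩ := M_expand D h.1 β m
    have h1 : ∀ i, ∃ d : k, algebraMap k B d = c i := by
      intro i
      obtain ⟨L, hL⟩ := exists_L D h.1 (β.coord i)
      have h2 : L m = c i := by
        rw [hc, Finsupp.sum, map_sum]
        have h3 : ∀ x ∈ c.support, L (algebraMap B R (c x) • ι (β x))
            = if x = i then c i else 0 := by
          intro x _
          have h4 := lamR_mul D (le (A := A) (β.coord i) (β x)) (c x) 1
          rw [map_one, mul_one] at h4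
          rw [hL, h4]
          have h5 : le (A := A) (β.coord i) (β x) 1 = if x = i then 1 else 0 := by
            show β.coord i ((1 : A) • β x) = _
            rw [one_smul, Module.Basis.coord_apply, Module.Basis.repr_self, Finsupp.single_apply]
          rw [h5]
          split_ifs with h
          · rw [map_one, mul_one, h]
          · rw [map_zero, mul_zero]
        rw [Finset.sum_congr rfl h3, Finset.sum_ite_eq']
        split_ifs with h
        · rfl
        · exact (Finsupp.notMem_support_iff.mp h).symm
      exact const_of_pow (p := p) hinj fun q => by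
        rw [← h2]; exact L_isPow D h hL (hm q)
    choose d hd using h1
    refine ⟨∑ i ∈ c.support, d i • β i, ?_⟩
    rw [hc, map_sum, Finsupp.sum]
    apply Finset.sum_congr rfl
    intro i _
    rw [← algebraMap_smul A (d i) (β i), map_smul, ← algebraMap_smul R (algebraMap k A (d i)),
      D.hk, hd]
  · rintro ⟨e, rfl⟩ q
    obtain ⟨d, f, ξ, hf, hξ, hsum⟩ := S₀.dual q
    rw [← hsum e, map_sum]
    apply AddSubgroup.sum_mem
    intro i _
    refine AddSubgroup.subset_closure ⟨ξ i e, ι (f i), ?_, by rw [map_smul, algebraMap_smul]⟩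
    rw [h.2 q]
    exact AddSubgroup.subset_closure ⟨1, f i, hf i, by rw [one_pow, one_smul]⟩

end Co

section Full

variable {p : ℕ} [hp : Fact p.Prime] {k A B R : Type*} {n : ℕ} [Field k] [CharP k p]
    [IsAlgClosed k] [CommRing A] [Algebra k A] [CharP A p]
    [CommRing B] [CharP B p] [Algebra k B] [Algebra B (Torus k n)]
    [IsScalarTower k B (Torus k n)] [CommRing R] [CharP R p]
    [Algebra A R] [Algebra B R] [Algebra R (Torus A n)] (D : Data k A B R n)
    {M : Type*} [AddCommGroup M] [Module R M]
    [Module A M] [IsScalarTower A R M]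
    {M' : Type*} [AddCommGroup M'] [Module R M']
    [Module A M'] [IsScalarTower A R M']
    {E : Type*} [AddCommGroup E] [Module A E]
    {E' : Type*} [AddCommGroup E'] [Module A E']
    {ι : E →ₗ[A] M} {ι' : E' →ₗ[A] M'}
    {S₀ : FDiv p A E} {S : FDiv p R M} (h : IsPull S₀ S ι)
    {S₀' : FDiv p A E'} {S' : FDiv p R M'} (h' : IsPull S₀' S' ι')

include D h h' in
/-- full faithfulness -/
theorem exists_unique_hom (hinj : Function.Injective (algebraMap B (Torus k n)))
    [Nontrivial B] (v : M →ₗ[R] M') (hv : IsHor S S' v) :
    ∃! u : E →ₗ[A] E', IsHor S₀ S₀' u ∧ ∀ x, ι' (u x) = v (ι x) := by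
  letI : Module k E := Module.compHom E (algebraMap k A)
  haveI : IsScalarTower k A E := ⟨fun c a e => by
    rw [Algebra.smul_def, mul_smul]; rfl⟩
  letI : Module k E' := Module.compHom E' (algebraMap k A)
  haveI : IsScalarTower k A E' := ⟨fun c a e => by
    rw [Algebra.smul_def, mul_smul]; rfl⟩
  have hkB : Function.Injective (algebraMap k B) := (algebraMap k B).injective
  have hι' := ι_inj D h'.1 hkB
  have hGA : ∀ q m, m ∈ GA A S q → v m ∈ GA A S' q := by
    intro q m hm
    refine AddSubgroup.closure_induction (p := fun m _ => v m ∈ GA A S' q)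
      (fun x hx => ?_) (by rw [map_zero]; exact zero_mem _)
      (fun x y _ _ hx hy => by rw [map_add]; exact add_mem hx hy)
      (fun x _ hx => by rw [map_neg]; exact neg_mem hx) hm
    obtain ⟨a, m, hm, rfl⟩ := hx
    exact AddSubgroup.subset_closure ⟨a, v m, hv q m hm, by rw [map_smul]⟩
  have hex : ∀ e, ∃ e', ι' e' = v (ι e) := fun e =>
    (emax D h' hinj _).mp fun q => hGA q _ ((emax D h hinj _).mpr ⟨e, rfl⟩ q)
  choose u hu using hex
  let u' : E →ₗ[A] E' :=
    { toFun := u
      map_add' := fun x y => hι' (by rw [map_add, hu, hu, hu, map_add, map_add])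
      map_smul' := fun a x => hι' (by
        rw [map_smul, hu, hu, map_smul, ← algebraMap_smul R a (ι x), map_smul,
          algebraMap_smul, RingHom.id_apply]) }
  refine ⟨u', ⟨?_, hu⟩, ?_⟩
  · intro q e he
    refine mem_of_refl h' (fun a ha => ?_) (m := u' e) ?_
    · obtain ⟨c, hc⟩ := ha
      refine ⟨Gr.rho A n (algebraMap R (Torus A n) c), ?_⟩
      rw [← map_pow, ← map_pow, hc, D.hA, AlgHom.commutes]
      rfl
    · show ι' (u e) ∈ _
      rw [hu]
      apply hv
      rw [h.2 q]
      exact AddSubgroup.subset_closure ⟨1, e, he, by rw [one_pow, one_smul]⟩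
  · rintro w ⟨-, hw⟩
    apply LinearMap.ext
    intro x
    exact hι' (by rw [hw]; exact (hu x).symm)

end Full

end FR
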