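import Pool.Agent.Lib.FR.Val

/-!
# The grading of `V` by integral degrees
-/

set_option autoImplicit false

namespace FR

open Finset FD

theorem exists_sep (p : ℕ) [hp : Fact p.Prime] {n : ℕ} (s : Finset (Fin n → ℤ)) :
    ∃ q, ∀ a ∈ s, ∀ b ∈ s, Cong p q a b → a = b := by
  classical
  refine ⟨2 * ∑ b ∈ s, ∑ i, (b i).natAbs, ?_⟩
  set q := 2 * ∑ b ∈ s, ∑ i, (b i).natAbs with hq
  have hlt : q < p ^ q := Nat.lt_pow_self hp.out.one_lt
  intro a ha b hb hc
  funext i
  have hbound : ∀ c ∈ s, (c i).natAbs ≤ ∑ b ∈ s, ∑ i, (b i).natAbs := by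
    intro c hcT
    have h1 : (c i).natAbs ≤ ∑ i, (c i).natAbs :=
      Finset.single_le_sum (f := fun i => (c i).natAbs) (fun _ _ => Nat.zero_le _)
        (Finset.mem_univ i)
    have h2 : ∑ i, (c i).natAbs ≤ ∑ b ∈ s, ∑ i, (b i).natAbs :=
      Finset.single_le_sum (f := fun b : Fin n → ℤ => ∑ i, (b i).natAbs)
        (fun _ _ => Nat.zero_le _) hcT
    omega
  have h1 := hbound b hb
  have h2 := hbound a ha
  have h3 : ((b i - a i).natAbs) < p ^ q := by
    have : (b i - a i).natAbs ≤ (b i).natAbs + (a i).natAbs := Int.natAbs_sub_le _ _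
    omega
  have h4 := hc i
  have h5 : b i - a i = 0 := by
    by_contra hne
    have h6 := Int.natAbs_dvd_natAbs.mpr h4
    rw [Int.natAbs_pow, Int.natAbs_natCast] at h6
    have h7 := Nat.le_of_dvd (by omega) h6
    omega
  linarith

section Grad

variable {p : ℕ} [hp : Fact p.Prime] {A : Type*} [CommRing A] [CharP A p] {n : ℕ}
  {V : Type*} [AddCommGroup V] [Module (Torus A n) V] (T : FDiv p (Torus A n) V)
  {E : Type*} [AddCommGroup E] (j₀ : E →+ V)

/-- the map `E[x^±1] → V` -/
noncomputable def Phi : ((Fin n → ℤ) →₀ E) →+ V :=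
  Finsupp.liftAddHom fun a => (DistribSMul.toAddMonoidHom V (mon A a)).comp j₀

omit hp [CharP A p] in
theorem Phi_single (a : Fin n → ℤ) (e : E) :
    Phi (A := A) (n := n) j₀ (Finsupp.single a e) = mon A a • j₀ e := by
  rw [Phi, Finsupp.liftAddHom_apply_single]
  rfl

variable (h0 : ∀ e q, P T q 0 (j₀ e) = j₀ e)

include h0

theorem P_mon_j (q : ℕ) (c a : Fin n → ℤ) (e : E) [Decidable (Cong p q a c)] :
    P T q c (mon A a • j₀ e) = if Cong p q a c then mon A a • j₀ e else 0 := by
  classical
  rw [P_mon_smul]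
  conv_lhs => rw [← h0 e q]
  rw [P_P T le_rfl]
  have h : Cong p q 0 (c - a) ↔ Cong p q a c := by
    constructor
    · intro h i
      have := h i
      simp only [Pi.zero_apply, Pi.sub_apply] at this
      have e : a i - c i = 0 - (c i - a i) := by ring
      rw [e]; exact this
    · intro h i
      have := h i
      simp only [Pi.zero_apply, Pi.sub_apply]
      have e : 0 - (c i - a i) = a i - c i := by ring
      rw [e]; exact this
  by_cases hc : Cong p q a c
  · rw [if_pos (h.mpr hc), if_pos hc, h0]
  · rw [if_neg (fun h' => hc (h.mp h')), if_neg hc, smul_zero]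

theorem P_Phi {q : ℕ} {a : Fin n → ℤ} (x : (Fin n → ℤ) →₀ E)
    (hx : ∀ b ∈ x.support, Cong p q b a → b = a) :
    P T q a (Phi (A := A) (n := n) j₀ x) = mon A a • j₀ (x a) := by
  classical
  have h1 : Phi (A := A) (n := n) j₀ x = ∑ b ∈ x.support, mon A b • j₀ (x b) := by
    conv_lhs => rw [← Finsupp.sum_single x, Finsupp.sum, map_sum]
    simp only [Phi_single]
  rw [h1, map_sum]
  have h2 : ∀ b ∈ x.support, P T q a (mon A b • j₀ (x b))
      = if b = a then mon A a • j₀ (x a) else 0 := by
    intro b hb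
    rw [P_mon_j T j₀ h0]
    by_cases hc : Cong p q b a
    · have := hx b hb hc
      subst this
      rw [if_pos hc, if_pos rfl]
    · rw [if_neg hc, if_neg]
      rintro rfl
      exact hc (Cong.refl p q b)
  rw [Finset.sum_congr rfl h2, Finset.sum_ite_eq']
  split_ifs with h
  · rfl
  · rw [Finsupp.notMem_support_iff.mp h, map_zero, smul_zero]

theorem Phi_inj (hinj : Function.Injective j₀) : Function.Injective (Phi (A := A) (n := n) j₀) := by
  classical
  rw [injective_iff_map_eq_zero]
  intro x hx
  ext a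
  obtain ⟨q, hq⟩ := exists_sep p (insert a x.support)
  have h1 := P_Phi T j₀ h0 (q := q) (a := a) x (fun b hb hc =>
    hq b (Finset.mem_insert_of_mem hb) a (Finset.mem_insert_self _ _) hc)
  rw [hx, map_zero] at h1
  have h2 : mon A (-a) • mon A a • j₀ (x a) = 0 := by rw [← h1, smul_zero]
  rw [smul_smul, mon_mul_mon, neg_add_cancel, mon_zero, one_smul] at h2
  exact (injective_iff_map_eq_zero _).mp hinj _ h2

omit h0 in
omit hp [CharP A p] in
theorem Phi_surj (hspan : ∀ v, v ∈ AddSubgroup.closure {x | ∃ (a : Fin n → ℤ) (e : E),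
    x = mon A a • j₀ e}) : Function.Surjective (Phi (A := A) (n := n) j₀) := by
  intro v
  have : AddSubgroup.closure {x | ∃ (a : Fin n → ℤ) (e : E), x = mon A a • j₀ e}
      ≤ (Phi (A := A) (n := n) j₀).range := by
    rw [AddSubgroup.closure_le]
    rintro _ ⟨a, e, rfl⟩
    exact ⟨Finsupp.single a e, Phi_single j₀ a e⟩
  exact this (hspan v)

end Grad

/-- The data of the grading: `V = E[x^±1]`. -/
structure Gr {p : ℕ} (k A : Type*) [Field k] [CommRing A] [Algebra k A] {n : ℕ} {V : Type*}
    [AddCommGroup V] [Module (Torus A n) V] (T : FDiv p (Torus A n) V) (E : Type*)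
    [AddCommGroup E] [Module A E] [Module k E] [IsScalarTower k A E] where
  j : E →+ V
  lin : ∀ (a : A) (e : E), j (a • e) = algebraMap A (Torus A n) a • j e
  zero : ∀ e q, ∀ [Fact p.Prime] [CharP A p], P T q 0 (j e) = j e
  bij : Function.Bijective (Phi (A := A) (n := n) j)

namespace Gr

variable {p : ℕ} [hp : Fact p.Prime] {k A : Type*} [Field k] [CommRing A] [Algebra k A]
  [CharP A p] {n : ℕ} {V : Type*} [AddCommGroup V] [Module (Torus A n) V]
  {T : FDiv p (Torus A n) V} {E : Type*}
  [AddCommGroup E] [Module A E] [Module k E] [IsScalarTower k A E] (G : Gr k A T E)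

/-- the components of a vector -/
noncomputable def comp : V ≃+ ((Fin n → ℤ) →₀ E) :=
  (AddEquiv.ofBijective _ G.bij).symm

omit hp [CharP A p] in
theorem Phi_comp (v : V) : Phi (A := A) (n := n) G.j (G.comp v) = v :=
  (AddEquiv.ofBijective _ G.bij).apply_symm_apply v

omit hp [CharP A p] in
theorem comp_Phi (x : (Fin n → ℤ) →₀ E) : G.comp (Phi (A := A) (n := n) G.j x) = x :=
  (AddEquiv.ofBijective _ G.bij).symm_apply_apply x

omit hp [CharP A p] in
theorem comp_mon (a : Fin n → ℤ) (e : E) : G.comp (mon A a • G.j e) = Finsupp.single a e := by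
  rw [← Phi_single, comp_Phi]

omit hp [CharP A p] in
/-- induction over `V = E[x^±1]` -/
theorem ind {Q : V → Prop} (v : V) (h0 : Q 0) (hadd : ∀ x y, Q x → Q y → Q (x + y))
    (hmon : ∀ (a : Fin n → ℤ) (e : E), Q (mon A a • G.j e)) : Q v := by
  classical
  obtain ⟨x, rfl⟩ := G.bij.2 v
  induction x using Finsupp.induction_linear with
  | zero => rwa [map_zero]
  | add x y hx hy => rw [map_add]; exact hadd _ _ hx hy
  | single a e => rw [Phi_single]; exact hmon a e

omit hp [CharP A p] in
theorem eq_sum (v : V) : v = ∑ a ∈ (G.comp v).support, mon A a • G.j (G.comp v a) := by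
  conv_lhs => rw [← G.Phi_comp v, ← Finsupp.sum_single (G.comp v), Finsupp.sum, map_sum]
  simp only [Phi_single]

/-- the value `V → E` at the unit element of the torus -/
noncomputable def rV : V →+ E :=
  (Finsupp.liftAddHom fun _ => AddMonoidHom.id E).comp G.comp.toAddMonoidHom

omit hp [CharP A p] in
theorem rV_mon (a : Fin n → ℤ) (e : E) : G.rV (mon A a • G.j e) = e := by
  show (Finsupp.liftAddHom fun _ => AddMonoidHom.id E) (G.comp (mon A a • G.j e)) = e
  rw [comp_mon, Finsupp.liftAddHom_apply_single]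
  rfl

omit hp [CharP A p] in
theorem rV_j (e : E) : G.rV (G.j e) = e := by
  have := G.rV_mon 0 e
  rwa [mon_zero, one_smul] at this

/-- the value at the unit element of the torus -/
noncomputable def rho (A : Type*) [CommRing A] (n : ℕ) : Torus A n →ₐ[A] A :=
  AddMonoidAlgebra.lift A A (Fin n → ℤ) 1

theorem rho_mon (A : Type*) [CommRing A] {n : ℕ} (a : Fin n → ℤ) : rho A n (mon A a) = 1 := by
  rw [rho, mon, AddMonoidAlgebra.lift_single]
  simp

omit hp [CharP A p] in
theorem rV_smul (f : Torus A n) (v : V) : G.rV (f • v) = rho A n f • G.rV v := by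
  induction v using G.ind with
  | h0 => simp
  | hadd x y hx hy => rw [smul_add, map_add, hx, hy, map_add, smul_add]
  | hmon a e =>
    induction f using torus_induction with
    | h0 => simp
    | hadd f g hf hg => rw [add_smul, map_add, hf, hg, map_add, add_smul]
    | hmon r b =>
      have h1 : (algebraMap A (Torus A n) r * mon A b) • mon A a • G.j e
          = mon A (b + a) • G.j (r • e) := by
        rw [G.lin, smul_smul, smul_smul, ← mon_mul_mon]
        congr 1; ring
      rw [h1, rV_mon, rV_mon, map_mul, rho_mon, mul_one, AlgHom.commutes]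
      rfl

/-- a linear form on `E`, extended to `V` -/
noncomputable def lam (l : E →ₗ[k] k) : V →+ Torus k n :=
  (Finsupp.liftAddHom fun a => ((AddMonoidAlgebra.singleAddHom a).comp l.toAddMonoidHom)).comp
    G.comp.toAddMonoidHom

omit hp [CharP A p] in
theorem lam_mon (l : E →ₗ[k] k) (a : Fin n → ℤ) (e : E) :
    G.lam l (mon A a • G.j e) = AddMonoidAlgebra.single a (l e) := by
  show (Finsupp.liftAddHom fun a => ((AddMonoidAlgebra.singleAddHom a).comp l.toAddMonoidHom))
    (G.comp (mon A a • G.j e)) = _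
  rw [comp_mon, Finsupp.liftAddHom_apply_single]
  rfl

omit hp [CharP A p] in
theorem lam_smul (l : E →ₗ[k] k) (f : Torus k n) (v : V) :
    G.lam l (toT k A n f • v) = f * G.lam l v := by
  induction v using G.ind with
  | h0 => simp
  | hadd x y hx hy => rw [smul_add, map_add, hx, hy, map_add, mul_add]
  | hmon a e =>
    induction f using torus_induction with
    | h0 => simp
    | hadd f g hf hg => rw [map_add, add_smul, map_add, hf, hg, add_mul]
    | hmon r b =>
      have h1 : toT k A n (algebraMap k (Torus k n) r * mon k b) • mon A a • G.j e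
          = mon A (b + a) • G.j (r • e) := by
        rw [map_mul, toT_algebraMap, toT_mon, ← algebraMap_smul A r e, G.lin, smul_smul,
          smul_smul, ← mon_mul_mon]
        congr 1; ring
      rw [h1, lam_mon, lam_mon, map_smul, smul_eq_mul]
      rw [mul_assoc, mon, AddMonoidAlgebra.single_mul_single, one_mul]
      ext c
      rw [coeff_scalar_mul, AddMonoidAlgebra.coeff_single, AddMonoidAlgebra.coeff_single,
        Finsupp.single_apply, Finsupp.single_apply]
      split_ifs <;> simp

omit hp [CharP A p] in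
theorem lam_j (l : E →ₗ[k] k) (e : E) :
    G.lam l (G.j e) = algebraMap k (Torus k n) (l e) := by
  have := G.lam_mon l 0 e
  rw [mon_zero, one_smul] at this
  rw [this]
  rfl

end Gr

end FR
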