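import Mathlib

/-!
# Lattices: integrality of `p`-adic exponents
-/

set_option autoImplicit false

namespace FR

section Lat

variable {p : ℕ} (hp : p.Prime) {n : ℕ} {I : Type*} [Finite I]
  (W : (Fin n → ℤ) →ₗ[ℤ] (I → ℤ))

omit [Finite I] in
/-- divisibility by all numbers prime to `p` -/
theorem div_of_primes (h : ∀ ℓ : ℕ, ℓ.Prime → ℓ ≠ p → ∀ a, (∀ i, (ℓ : ℤ) ∣ W a i) →
    ∃ b, a = (ℓ : ℤ) • b) (s : ℕ) (hs : s ≠ 0) (hps : ¬ p ∣ s) (a : Fin n → ℤ)
    (ha : ∀ i, (s : ℤ) ∣ W a i) : ∃ b, a = (s : ℤ) • b := by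
  induction s using induction_on_primes generalizing a with
  | zero => exact absurd rfl hs
  | one => exact ⟨a, by rw [Nat.cast_one, one_smul]⟩
  | prime_mul ℓ s hℓ ih =>
    have hℓp : ℓ ≠ p := by
      rintro rfl
      exact hps (dvd_mul_right _ _)
    have hs0 : s ≠ 0 := by
      rintro rfl
      exact hs (mul_zero _)
    have hpa : ¬ p ∣ s := fun h => hps (dvd_mul_of_dvd_right h _)
    obtain ⟨b, rfl⟩ := h ℓ hℓ hℓp a fun i => by
      have := ha i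
      rw [Nat.cast_mul] at this
      exact dvd_of_mul_right_dvd this
    obtain ⟨c, rfl⟩ := ih hs0 hpa b fun i => by
      have := ha i
      rw [Nat.cast_mul, map_smul, Pi.smul_apply, smul_eq_mul] at this
      exact (mul_dvd_mul_iff_left (Nat.cast_ne_zero.mpr hℓ.ne_zero)).mp this
    exact ⟨c, by rw [smul_smul, Nat.cast_mul]⟩

include hp

omit [Finite I] in
theorem W_inj (h : ∀ ℓ : ℕ, ℓ.Prime → ℓ ≠ p → ∀ a, (∀ i, (ℓ : ℤ) ∣ W a i) →
    ∃ b, a = (ℓ : ℤ) • b) : Function.Injective W := by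
  rw [← LinearMap.ker_eq_bot, eq_bot_iff]
  intro a ha
  rw [LinearMap.mem_ker] at ha
  rw [Submodule.mem_bot]
  by_contra hne
  obtain ⟨i, hi⟩ := Function.ne_iff.mp hne
  rw [Pi.zero_apply] at hi
  obtain ⟨ℓ, hℓ, hℓp⟩ : ∃ ℓ : ℕ, ℓ.Prime ∧ ℓ ≠ p := by
    by_cases h2 : p = 2
    · exact ⟨3, Nat.prime_three, by omega⟩
    · exact ⟨2, Nat.prime_two, fun h => h2 h.symm⟩
  have hnd : ¬ p ∣ ℓ ^ (a i).natAbs := fun hd =>
    hℓp ((Nat.prime_dvd_prime_iff_eq hp hℓ).mp (hp.dvd_of_dvd_pow hd)).symm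
  obtain ⟨b, hb⟩ := div_of_primes W h (ℓ ^ (a i).natAbs) (pow_ne_zero _ hℓ.ne_zero) hnd a
    fun j => by rw [ha]; exact dvd_zero _
  have h1 : ((ℓ ^ (a i).natAbs : ℕ) : ℤ) ∣ a i := ⟨b i, by
    conv_lhs => rw [hb]
    rw [Pi.smul_apply, smul_eq_mul]⟩
  have h2 := Nat.le_of_dvd (Int.natAbs_pos.mpr hi) (Int.natCast_dvd.mp h1)
  have h3 : (a i).natAbs < ℓ ^ (a i).natAbs := Nat.lt_pow_self hℓ.one_lt
  omega

theorem exists_t (hinj : Function.Injective W) : ∃ t : ℕ, ∀ (q : ℕ) (b : Fin n → ℤ),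
    (∀ i, (p : ℤ) ^ (q + t) ∣ W b i) → ∀ j, (p : ℤ) ^ q ∣ b j := by
  let N : ℕ →o Submodule ℤ (I → ℤ) :=
    { toFun := fun t => (LinearMap.range W).comap ((p : ℤ) ^ t • LinearMap.id)
      monotone' := by
        intro t u htu x hx
        rw [Submodule.mem_comap] at hx ⊢
        obtain ⟨r, rfl⟩ := Nat.exists_eq_add_of_le htu
        have : ((p : ℤ) ^ (t + r) • LinearMap.id : (I → ℤ) →ₗ[ℤ] (I → ℤ)) x
            = (p : ℤ) ^ r • (((p : ℤ) ^ t • LinearMap.id : (I → ℤ) →ₗ[ℤ] (I → ℤ)) x) := by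
          simp only [LinearMap.smul_apply, LinearMap.id_apply, smul_smul]
          rw [pow_add, mul_comm]
        rw [this]
        exact Submodule.smul_mem _ _ hx }
  obtain ⟨t, ht⟩ := monotone_stabilizes_iff_noetherian.mpr (inferInstance : IsNoetherian ℤ (I → ℤ)) N
  refine ⟨t, fun q b hb j => ?_⟩
  choose y hy using hb
  have h1 : W b = (p : ℤ) ^ (q + t) • y := by
    funext i
    rw [hy, Pi.smul_apply, smul_eq_mul]
  have h2 : y ∈ N (q + t) := by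
    show _ ∈ LinearMap.range W
    exact ⟨b, by rw [h1]; rfl⟩
  rw [← ht (q + t) (Nat.le_add_left _ _)] at h2
  obtain ⟨b', hb'⟩ := (h2 : _ ∈ LinearMap.range W)
  have h3 : W b' = (p : ℤ) ^ t • y := by rw [hb']; rfl
  have h4 : b = (p : ℤ) ^ q • b' := by
    apply hinj
    rw [map_smul, h3, h1, smul_smul, ← pow_add]
  exact ⟨b' j, by conv_lhs => rw [h4]
                  rw [Pi.smul_apply, smul_eq_mul]⟩

/-- A coherent sequence whose values are integral is integral. -/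
theorem lat (h : ∀ ℓ : ℕ, ℓ.Prime → ℓ ≠ p → ∀ a, (∀ i, (ℓ : ℤ) ∣ W a i) →
    ∃ b, a = (ℓ : ℤ) • b) (γ : ℕ → Fin n → ℤ) (hγ : ∀ q r, q ≤ r → ∀ j,
      (p : ℤ) ^ q ∣ γ r j - γ q j) (c : I → ℤ)
    (hc : ∀ q i, (p : ℤ) ^ q ∣ c i - W (γ q) i) :
    ∃ a : Fin n → ℤ, ∀ q j, (p : ℤ) ^ q ∣ γ q j - a j := by
  have hinj := W_inj hp W h
  -- the class of `c` modulo the image of `W` is divisible by all powers of `p`
  set x : (I → ℤ) ⧸ LinearMap.range W := Submodule.Quotient.mk c with hx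
  have h1 : x ∈ (⨅ i : ℕ, (Ideal.span {(p : ℤ)}) ^ i • ⊤ :
      Submodule ℤ ((I → ℤ) ⧸ LinearMap.range W)) := by
    rw [Submodule.mem_iInf]
    intro q
    choose d hd using hc q
    have h2 : x = (p : ℤ) ^ q • (Submodule.Quotient.mk d : (I → ℤ) ⧸ LinearMap.range W) := by
      rw [← Submodule.Quotient.mk_smul, hx, Submodule.Quotient.eq]
      refine ⟨γ q, ?_⟩
      funext i
      rw [Pi.sub_apply, Pi.smul_apply, smul_eq_mul, ← hd]
      ring
    rw [h2]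
    exact Submodule.smul_mem_smul (Ideal.pow_mem_pow (Ideal.mem_span_singleton_self _) q) trivial
  rw [Ideal.mem_iInf_smul_pow_eq_bot_iff] at h1
  obtain ⟨⟨r, hr⟩, hrx⟩ := h1
  obtain ⟨r', rfl⟩ := Ideal.mem_span_singleton.mp hr
  have h2 : (1 - (p : ℤ) * r') • c ∈ LinearMap.range W := by
    rw [← Submodule.Quotient.mk_eq_zero, Submodule.Quotient.mk_smul, sub_smul, one_smul,
      sub_eq_zero]
    exact hrx.symm
  obtain ⟨a, ha⟩ := h2
  set s := 1 - (p : ℤ) * r' with hs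
  have hps : ¬ p ∣ s.natAbs := by
    intro hd
    have h3 : (p : ℤ) ∣ s := Int.natCast_dvd.mpr hd
    have h4 : (p : ℤ) ∣ 1 := by
      have : (1 : ℤ) = s + p * r' := by rw [hs]; ring
      rw [this]
      exact dvd_add h3 (dvd_mul_right _ _)
    have h5 := Int.natCast_dvd_natCast.mp (by exact_mod_cast h4 : (p : ℤ) ∣ ((1 : ℕ) : ℤ))
    exact hp.one_lt.ne' (Nat.dvd_one.mp h5)
  have hs0 : s ≠ 0 := by
    intro h0
    exact hps (by rw [h0]; exact dvd_zero p)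
  obtain ⟨b, hb⟩ := div_of_primes W h s.natAbs (Int.natAbs_ne_zero.mpr hs0) hps a fun i => by
    rw [ha, Pi.smul_apply, smul_eq_mul]
    exact dvd_mul_of_dvd_left (Int.natAbs_dvd.mpr dvd_rfl) _
  obtain ⟨b', hb'⟩ : ∃ b', a = s • b' := by
    rcases Int.natAbs_eq s with h3 | h3
    · exact ⟨b, by rw [h3]; exact hb⟩
    · exact ⟨-b, by
        conv_rhs => rw [h3]
        rw [neg_smul, smul_neg, neg_neg]
        exact hb⟩
  have hWb : W b' = c := by
    rw [hb', map_smul] at ha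
    exact smul_right_injective (I → ℤ) hs0 ha
  obtain ⟨t, ht⟩ := exists_t hp W hinj
  refine ⟨b', fun q j => ?_⟩
  have h3 := ht q (γ (q + t) - b') (fun i => by
    rw [map_sub, Pi.sub_apply, hWb, ← neg_sub]
    exact (dvd_neg.mpr (hc (q + t) i))) j
  have h4 := hγ q (q + t) (Nat.le_add_right _ _) j
  have h5 : γ q j - b' j = (γ (q + t) - b') j - (γ (q + t) j - γ q j) := by
    rw [Pi.sub_apply]; ring
  rw [h5]
  exact dvd_sub h3 h4

end Lat

end FR
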