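import Pool.Agent.Lib.FR.Ext

/-!
# The open subset `X × G_m^n` of `X × Z`
-/

set_option autoImplicit false

namespace FR

open Finset FD

section GA

variable {p : ℕ} {R M : Type*} [CommRing R] [AddCommGroup M] [Module R M]

/-- the span over `A` of `F q` -/
def GA (A : Type*) [CommRing A] [Algebra A R] (S : FDiv p R M) (q : ℕ) : AddSubgroup M :=
  AddSubgroup.closure {x | ∃ (r : A) (m : M), m ∈ S.F q ∧ x = algebraMap A R r • m}

variable {A : Type*} [CommRing A] [Algebra A R] (S : FDiv p R M)

theorem F_le_GA {q : ℕ} {m : M} (hm : m ∈ S.F q) : m ∈ GA A S q :=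
  AddSubgroup.subset_closure ⟨1, m, hm, by rw [map_one, one_smul]⟩

theorem smul_mem_GA {q : ℕ} (r : A) {v : M} (hv : v ∈ GA A S q) :
    algebraMap A R r • v ∈ GA A S q := by
  unfold GA at hv ⊢
  induction hv using AddSubgroup.closure_induction with
  | mem x hx =>
    obtain ⟨s, m, hm, rfl⟩ := hx
    exact AddSubgroup.subset_closure ⟨r * s, m, hm, by rw [map_mul, mul_smul]⟩
  | zero => rw [smul_zero]; exact zero_mem _
  | add x y _ _ hx hy => rw [smul_add]; exact add_mem hx hy
  | neg x _ hx => rw [smul_neg]; exact neg_mem hx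

theorem pow_smul_mem_GA {q : ℕ} (c : R) {v : M} (hv : v ∈ GA A S q) :
    c ^ p ^ q • v ∈ GA A S q := by
  unfold GA at hv ⊢
  induction hv using AddSubgroup.closure_induction with
  | mem x hx =>
    obtain ⟨s, m, hm, rfl⟩ := hx
    exact AddSubgroup.subset_closure ⟨s, c ^ p ^ q • m, S.pow_smul q c m hm, by
      rw [smul_smul, smul_smul, mul_comm]⟩
  | zero => rw [smul_zero]; exact zero_mem _
  | add x y _ _ hx hy => rw [smul_add]; exact add_mem hx hy
  | neg x _ hx => rw [smul_neg]; exact neg_mem hx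

theorem map_mem_GA {R' N : Type*} [CommRing R'] [AddCommGroup N] [Module R' N] [Algebra R R']
    [Module R N] [IsScalarTower R R' N] [Algebra A R'] [IsScalarTower A R R']
    {T : FDiv p R' N} {j : M →ₗ[R] N} (hj : IsPull S T j) {q : ℕ} {m : M} (hm : m ∈ GA A S q) :
    j m ∈ GA A T q := by
  unfold GA at hm ⊢
  induction hm using AddSubgroup.closure_induction with
  | mem x hx =>
    obtain ⟨s, m, hm, rfl⟩ := hx
    refine AddSubgroup.subset_closure ⟨s, j m, hj.map_mem hm, ?_⟩
    rw [map_smul, ← algebraMap_smul R' (algebraMap A R s), ← IsScalarTower.algebraMap_apply]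
  | zero => rw [map_zero]; exact zero_mem _
  | add x y _ _ hx hy => rw [map_add]; exact add_mem hx hy
  | neg x _ hx => rw [map_neg]; exact neg_mem hx

end GA

/-- What we need about `Z = Spec B`, which contains the open subset `Spec L`. -/
structure Chart (B L : Type*) [CommRing B] [CommRing L] [Algebra B L] : Prop where
  inj : Function.Injective (algebraMap B L)
  frac : ∀ h : L, ∃ b c : B, b ≠ 0 ∧ algebraMap B L b * h = algebraMap B L c
  root : ∀ (Q : ℕ) (h : L) (c : B), 0 < Q → h ^ Q = algebraMap B L c →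
    ∃ r : B, algebraMap B L r = h
  bdd : ∀ b : B, b ≠ 0 → ∃ C : ℕ, ∀ (Q : ℕ) (h : L) (c : B), C < Q →
    algebraMap B L b * h ^ Q = algebraMap B L c → ∃ r : B, algebraMap B L r = h

section Loc

variable {p : ℕ} {k A B R : Type*} {n : ℕ} [Field k] [CommRing A] [Algebra k A]
    [CommRing B] [IsDomain B]
    [Algebra k B] [Algebra B (Torus k n)] [IsScalarTower k B (Torus k n)] [CommRing R]
    [Algebra A R] [Algebra B R] [Algebra R (Torus A n)] (D : Data k A B R n)
    (hZ : Chart B (Torus k n))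

include D hZ

omit [IsScalarTower k B (Torus k n)] in
theorem T_surj (t : Torus A n) : ∃ (b : B) (r : R), b ≠ 0 ∧
    toT k A n (algebraMap B (Torus k n) b) * t = algebraMap R (Torus A n) r := by
  refine T_ind (k := k) (P := fun t => ∃ (b : B) (r : R), b ≠ 0 ∧
    toT k A n (algebraMap B (Torus k n) b) * t = algebraMap R (Torus A n) r) t
    ⟨1, 0, one_ne_zero, by simp⟩ ?_ ?_
  · rintro x y ⟨b, r, hb, hr⟩ ⟨b', r', hb', hr'⟩
    refine ⟨b * b', algebraMap B R b' * r + algebraMap B R b * r', mul_ne_zero hb hb', ?_⟩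
    rw [map_add, map_mul (algebraMap R (Torus A n)), map_mul (algebraMap R (Torus A n)), ← hr,
      ← hr', D.hB, D.hB, map_mul, map_mul]
    ring
  · intro f a
    obtain ⟨b, c, hb, hc⟩ := hZ.frac f
    refine ⟨b, algebraMap B R c * algebraMap A R a, hb, ?_⟩
    rw [map_mul, D.hB, D.hA, ← hc, map_mul]
    ring

theorem alg_inj : Function.Injective (algebraMap R (Torus A n)) :=
  algebraMap_inj D hZ.inj

variable {M : Type*} [AddCommGroup M] [Module R M] [Module B M] [IsScalarTower B R M]
  {S : FDiv p R M} {V : Type*} [AddCommGroup V]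
  [Module (Torus A n) V] [Module R V] [IsScalarTower R (Torus A n) V]
  {T : FDiv p (Torus A n) V} {j : M →ₗ[R] V} (hj : IsPull S T j)

omit hZ [IsDomain B] [IsScalarTower k B (Torus k n)] in
theorem j_smul_B (j : M →ₗ[R] V) (b : B) (m : M) :
    j (b • m) = toT k A n (algebraMap B (Torus k n) b) • j m := by
  rw [← algebraMap_smul R b m, map_smul, ← algebraMap_smul (Torus A n) (algebraMap B R b), D.hB]

include hj

omit [Module B M] [IsScalarTower B R M] in
theorem j_inj : Function.Injective j := by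
  rw [injective_iff_map_eq_zero]
  intro m hm
  obtain ⟨d, e, ξ, hsum⟩ := S.exists_coords
  rw [← hsum m]
  apply Finset.sum_eq_zero
  intro i _
  obtain ⟨ξ', hξ'⟩ := hj.exists_ext (ξ i)
  have h1 := hξ' m
  rw [hm, map_zero] at h1
  have h2 : ξ i m = 0 := alg_inj D hZ (by rw [← h1, map_zero])
  rw [h2, zero_smul]

omit [IsScalarTower k B (Torus k n)] in
theorem exists_clear (v : V) : ∃ (b : B) (m : M), b ≠ 0 ∧
    toT k A n (algebraMap B (Torus k n) b) • v = j m := by
  induction v using hj.1.inductionOn with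
  | zero => exact ⟨1, 0, one_ne_zero, by rw [smul_zero, map_zero]⟩
  | tmul m => exact ⟨1, m, one_ne_zero, by rw [map_one, map_one, one_smul]⟩
  | smul s v ih =>
    obtain ⟨b, m, hb, hm⟩ := ih
    obtain ⟨c, r, hc, hcr⟩ := T_surj D hZ s
    refine ⟨b * c, r • m, mul_ne_zero hb hc, ?_⟩
    rw [map_smul, ← hm, ← algebraMap_smul (Torus A n) r, ← hcr, smul_smul, smul_smul, map_mul,
      map_mul]
    congr 1
    ring
  | add v w hv hw =>
    obtain ⟨b, m, hb, hm⟩ := hv
    obtain ⟨b', m', hb', hm'⟩ := hw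
    refine ⟨b * b', b' • m + b • m', mul_ne_zero hb hb', ?_⟩
    rw [map_add, j_smul_B D, j_smul_B D, ← hm, ← hm', smul_add, smul_smul, smul_smul, map_mul,
      map_mul]
    congr 2
    · ring

end Loc

section Tf

variable {k A : Type*} {n : ℕ} [Field k] [CommRing A] [Algebra k A]

theorem toT_mul_inj {f : Torus k n} (hf : f ≠ 0) {t : Torus A n} (h : toT k A n f * t = 0) :
    t = 0 := by
  ext a
  let β := Module.Basis.ofVectorSpace k A
  apply β.repr.injective
  ext s
  have h1 := lamT_toT_mul (β.coord s) f t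
  rw [h, map_zero] at h1
  have h2 := (mul_eq_zero.mp h1.symm).resolve_left hf
  have h3 : (lamT (β.coord s) t).coeff a = 0 := by rw [h2]; rfl
  rw [coeff_lamT] at h3
  have h4 : (β.repr (t.coeff a)) s = 0 := h3
  rw [h4]
  simp

theorem toT_smul_inj {p : ℕ} {V : Type*} [AddCommGroup V] [Module (Torus A n) V]
    (T : FDiv p (Torus A n) V) {f : Torus k n} (hf : f ≠ 0) {v : V} (h : toT k A n f • v = 0) :
    v = 0 := by
  obtain ⟨d, e, ξ, hsum⟩ := T.exists_coords
  rw [← hsum v]
  apply Finset.sum_eq_zero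
  intro i _
  have h1 : ξ i v = 0 := toT_mul_inj hf (by rw [← smul_eq_mul, ← map_smul, h, map_zero])
  rw [h1, zero_smul]

end Tf

end FR
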