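import Pool.Agent.Lib.FR.Full

/-!
# Descent
-/

set_option autoImplicit false

namespace FR

open Finset FD

section Em

variable {p : ℕ} {R M : Type*} [CommRing R] [AddCommGroup M] [Module R M]

/-- the sections in all `A · F q` -/
def Emax (A : Type*) [CommRing A] [Algebra A R] [Module A M] [IsScalarTower A R M]
    (S : FDiv p R M) : Submodule A M where
  carrier := {m | ∀ q, m ∈ GA A S q}
  add_mem' := fun hx hy q => add_mem (hx q) (hy q)
  zero_mem' := fun q => zero_mem _
  smul_mem' := fun a m hm q => by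
    rw [← algebraMap_smul R a m]
    exact smul_mem_GA S a (hm q)

end Em

section Desc

variable {p : ℕ} [hp : Fact p.Prime] {k A B R : Type*} {n : ℕ} [Field k] [CharP k p]
    [IsAlgClosed k] [CommRing A] [Algebra k A] [CharP A p] [IsReduced A] [IsNoetherianRing A]
    [CommRing B] [IsDomain B]
    [Algebra k B] [Algebra B (Torus k n)] [IsScalarTower k B (Torus k n)] [CommRing R]
    [Algebra A R] [Algebra B R] [Algebra R (Torus A n)] [IsScalarTower A R (Torus A n)]
    (D : Data k A B R n) [CharP B p] [CharP R p]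
    (hinj : Function.Injective (algebraMap B (Torus k n)))
    (hfrac : ∀ h : Torus k n, ∃ b c : B, b ≠ 0 ∧
      algebraMap B (Torus k n) b * h = algebraMap B (Torus k n) c)
    {I : Type*} [Finite I] {v : I → Torus k n → ℤ} (hv : ∀ i, IsVal (v i))
    (hB : ∀ h : Torus k n, h ≠ 0 → ((∃ b : B, algebraMap B (Torus k n) b = h) ↔ ∀ i, 0 ≤ v i h))
    (hU : ∀ ℓ : ℕ, ℓ.Prime → ℓ ≠ p → ∀ a : Fin n → ℤ, (∀ i, (ℓ : ℤ) ∣ v i (mon k a)) →
      ∃ b : Fin n → ℤ, a = (ℓ : ℤ) • b)
    {M : Type*} [AddCommGroup M] [Module R M] [Module A M] [IsScalarTower A R M]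
    {S : FDiv p R M} {V : Type*} [AddCommGroup V]
    [Module (Torus A n) V] [Module R V] [IsScalarTower R (Torus A n) V]
    [Module A V] [IsScalarTower A (Torus A n) V]
    {T : FDiv p (Torus A n) V} {j : M →ₗ[R] V} (hj : IsPull S T j)

include D hinj hfrac hv hB hU hj in
/-- descent -/
theorem exists_descent (hreg : RegularTorus T) :
    ∃ (E : Submodule A M) (S₀ : FDiv p A E), IsPull S₀ S E.subtype := by
  letI : Module B M := Module.compHom M (algebraMap B R)
  haveI : IsScalarTower B R M := ⟨fun b r m => by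
    rw [Algebra.smul_def, mul_smul]; rfl⟩
  have hZ := chart_of hv hinj hfrac hB
  set E := Emax A S with hE
  letI : Module k E := Module.compHom E (algebraMap k A)
  haveI : IsScalarTower k A E := ⟨fun c a e => by
    rw [Algebra.smul_def, mul_smul]; rfl⟩
  let j₀ : E →+ V := j.toAddMonoidHom.comp E.subtype.toAddMonoidHom
  have hlin : ∀ (a : A) (e : E), j₀ (a • e) = algebraMap A (Torus A n) a • j₀ e := by
    intro a e
    show j (a • (e : M)) = _
    rw [← algebraMap_smul R a (e : M), map_smul, ← algebraMap_smul (Torus A n),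
      ← IsScalarTower.algebraMap_apply]
    rfl
  have h0 : ∀ e q, P T q 0 (j₀ e) = j₀ e := fun e q =>
    P_eq_of_mem_Gq T (map_mem_GA S hj (e.2 q))
  have hinj : Function.Injective j₀ := fun x y hxy =>
    Subtype.ext (j_inj D hZ hj hxy)
  have hsm : ∀ (a : A) (v : V), v ∈ AddSubgroup.closure {x | ∃ (b : Fin n → ℤ) (e : E),
      x = mon A b • j₀ e} → a • v ∈ AddSubgroup.closure {x | ∃ (b : Fin n → ℤ) (e : E),
      x = mon A b • j₀ e} := by
    intro a v hv
    refine AddSubgroup.closure_induction (p := fun v _ => a • v ∈ AddSubgroup.closure {x |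
      ∃ (b : Fin n → ℤ) (e : E), x = mon A b • j₀ e})
      (fun x hx => ?_) (by rw [smul_zero]; exact zero_mem _)
      (fun x y _ _ hx hy => by rw [smul_add]; exact add_mem hx hy)
      (fun x _ hx => by rw [smul_neg]; exact neg_mem hx) hv
    obtain ⟨b, e, rfl⟩ := hx
    refine AddSubgroup.subset_closure ⟨b, a • e, ?_⟩
    rw [hlin, ← algebraMap_smul (Torus A n) a, smul_smul, smul_smul, mul_comm]
  have hspan : ∀ v, v ∈ AddSubgroup.closure {x | ∃ (b : Fin n → ℤ) (e : E),
      x = mon A b • j₀ e} := by
    intro v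
    have hv := mem_span_Vg T hreg v
    induction hv using Submodule.span_induction with
    | mem x hx =>
      obtain ⟨γ, hγ⟩ := Set.mem_iUnion.mp hx
      by_cases hx0 : x = 0
      · rw [hx0]; exact zero_mem _
      · obtain ⟨a, m, hm, hv⟩ := exists_e D hZ hj hv hB hU hγ hx0
        exact AddSubgroup.subset_closure ⟨a, ⟨m, hm⟩, hv⟩
    | zero => exact zero_mem _
    | add x y _ _ hx hy => exact add_mem hx hy
    | smul a x _ hx => exact hsm a x hx
  let G : Gr k A T E :=
    { j := j₀
      lin := hlin
      zero := fun e q _ _ => h0 e q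
      bij := ⟨Phi_inj T j₀ h0 hinj, Phi_surj j₀ hspan⟩ }
  obtain ⟨SE, hSE⟩ := exists_SE D hZ hj E.subtype G (fun _ => rfl)
  exact ⟨E, SE, isPull_E D hZ hj E.subtype G (fun _ => rfl) hSE⟩

end Desc

section Dat

variable {k A B R : Type*} {n : ℕ} [Field k] [CommRing A] [Algebra k A] [CommRing B]
    [Algebra k B] [Algebra B (Torus k n)] [CommRing R] [Algebra k R] [Algebra A R]
    [IsScalarTower k A R] [Algebra B R] [IsScalarTower k B R] [Algebra.IsPushout k A B R]
    [Algebra R (Torus A n)] [IsScalarTower A R (Torus A n)]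

theorem exists_data (hc : ∀ b : B, algebraMap R (Torus A n) (algebraMap B R b)
    = AddMonoidAlgebra.mapRingHom (Fin n → ℤ) (algebraMap k A) (algebraMap B (Torus k n) b)) :
    Nonempty (Data k A B R n) := by
  have hpo : Algebra.IsPushout k B A R := Algebra.IsPushout.symm inferInstance
  refine ⟨{ σ := _, bA := Module.Basis.ofVectorSpace k A,
            bR := hpo.out.basis (Module.Basis.ofVectorSpace k A),
            bR_eq := fun s => hpo.out.basis_apply _ s,
            hk := fun c => ?_,
            hB := hc,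
            hA := fun a => (IsScalarTower.algebraMap_apply A R (Torus A n) a).symm }⟩
  rw [← IsScalarTower.algebraMap_apply, ← IsScalarTower.algebraMap_apply]

end Dat

open scoped TensorProduct in
/-- `S` is an F-divided bundle on `X × Z = Spec R`, where `X = Spec A` and `Z` contains the torus `G_m^n`
as an open subset. It is regular singular along the divisors `X × D`, `D` one of the `2 n` boundary
divisors of `(P^1)^n`: its restriction to `X × G_m^n = Spec A[x_1^±1, ..., x_n^±1]` is. -/
def RegularOver {p : ℕ} (A : Type*) [CommRing A] (n : ℕ) {R M : Type*} [CommRing R]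
    [AddCommGroup M] [Module R M] [Algebra R (Torus A n)] (S : FDiv p R M) : Prop :=
  ∃ T : FDiv p (Torus A n) (Torus A n ⊗[R] M),
    IsPull S T (TensorProduct.mk R (Torus A n) M 1) ∧ RegularTorus T

end FR
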