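import Pool.Agent.Lib.FR.Desc
import Pool.Agent.Lib.FD.Main

/-!
# Existence and regularity of pull-backs
-/

set_option autoImplicit false

namespace FR

open Finset FD

section Ex

variable {p : ℕ} [hp : Fact p.Prime] {R R' M V : Type*} [CommRing R] [CommRing R'] [CharP R' p]
  [Algebra R R'] [AddCommGroup M] [Module R M] [AddCommGroup V] [Module R' V] [Module R V]
  [IsScalarTower R R' V] {j : M →ₗ[R] V}

/-- existence of pull-backs -/
theorem exists_pull (S : FDiv p R M) (hj : IsBaseChange R' j) :
    ∃ T : FDiv p R' V, IsPull S T j := by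
  have hanti : ∀ q, AddSubgroup.closure {x | ∃ (c : R') (m : M), m ∈ S.F (q + 1) ∧
      x = c ^ p ^ (q + 1) • j m} ≤ AddSubgroup.closure {x | ∃ (c : R') (m : M), m ∈ S.F q ∧
      x = c ^ p ^ q • j m} := by
    intro q
    rw [AddSubgroup.closure_le]
    rintro _ ⟨c, m, hm, rfl⟩
    exact AddSubgroup.subset_closure ⟨c ^ p, m, S.anti q hm, by
      rw [← pow_mul, pow_succ, mul_comm]⟩
  refine ⟨
    { F := fun q => AddSubgroup.closure {x | ∃ (c : R') (m : M), m ∈ S.F q ∧
        x = c ^ p ^ q • j m}
      zero := ?_
      anti := hanti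
      pow_smul := ?_
      dual := ?_
      gen := ?_ }, hj, fun q => rfl⟩
  · rw [eq_top_iff]
    intro v _
    induction v using hj.inductionOn with
    | zero => exact zero_mem _
    | tmul m =>
      exact AddSubgroup.subset_closure ⟨1, m, by rw [S.zero]; trivial, by rw [one_pow, one_smul]⟩
    | smul s v ih =>
      have h1 := ih trivial
      refine AddSubgroup.closure_induction (p := fun v _ => s • v ∈ _)
        (fun x hx => ?_) (by rw [smul_zero]; exact zero_mem _)
        (fun x y _ _ hx hy => by rw [smul_add]; exact add_mem hx hy)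
        (fun x _ hx => by rw [smul_neg]; exact neg_mem hx) h1
      obtain ⟨c, m, hm, rfl⟩ := hx
      exact AddSubgroup.subset_closure ⟨s * c, m, hm, by
        rw [pow_zero, pow_one, pow_one, mul_smul]⟩
    | add x y hx hy => exact add_mem (hx trivial) (hy trivial)
  · intro q c v hv
    refine AddSubgroup.closure_induction (p := fun v _ => c ^ p ^ q • v ∈ _)
      (fun x hx => ?_) (by rw [smul_zero]; exact zero_mem _)
      (fun x y _ _ hx hy => by rw [smul_add]; exact add_mem hx hy)
      (fun x _ hx => by rw [smul_neg]; exact neg_mem hx) hv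
    obtain ⟨d, m, hm, rfl⟩ := hx
    exact AddSubgroup.subset_closure ⟨c * d, m, hm, by rw [mul_pow, mul_smul]⟩
  · intro q
    obtain ⟨d, e, ξ, he, hξ, hsum⟩ := S.dual q
    choose ξ' hξ' using fun i => exists_ext hj (ξ i)
    refine ⟨d, fun i => j (e i), ξ', ?_, ?_, ?_⟩
    · intro i
      exact AddSubgroup.subset_closure ⟨1, e i, he i, by rw [one_pow, one_smul]⟩
    · intro i v hv
      have hneg : IsPow p q (-1 : R') := by
        refine ⟨-1, ?_⟩
        rcases hp.out.eq_two_or_odd' with h2 | h2
        · have h3 : (-1 : R') = 1 := by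
            have : (2 : R') = 0 := by
              have := CharP.cast_eq_zero R' p
              rw [h2] at this
              exact_mod_cast this
            linear_combination -this
          rw [h3, one_pow]
        · exact Odd.neg_one_pow h2.pow
      obtain ⟨e', he'⟩ := hneg
      refine AddSubgroup.closure_induction (p := fun v _ => IsPow p q (ξ' i v))
        (fun x hx => ?_) (by rw [map_zero]; exact ⟨0, zero_pow (pow_ne_zero _ hp.out.ne_zero)⟩)
        (fun x y _ _ hx hy => by rw [map_add]; exact isPow_add p hx hy)
        (fun x _ hx => by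
          obtain ⟨d, hd⟩ := hx
          exact ⟨e' * d, by rw [map_neg, mul_pow, he', hd, neg_one_mul]⟩) hv
      obtain ⟨c, m, hm, rfl⟩ := hx
      obtain ⟨d, hd⟩ := hξ i m hm
      exact ⟨c * algebraMap R R' d, by
        rw [map_smul, hξ', smul_eq_mul, mul_pow, ← map_pow, hd]⟩
    · intro v
      have h2 : (∑ i, (LinearMap.toSpanSingleton R' V (j (e i))).comp (ξ' i)) = LinearMap.id := by
        apply hj.algHom_ext
        intro x
        rw [LinearMap.sum_apply, LinearMap.id_apply]
        conv_rhs => rw [← hsum x, map_sum]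
        apply Finset.sum_congr rfl
        intro i _
        rw [LinearMap.comp_apply, LinearMap.toSpanSingleton_apply, hξ', algebraMap_smul, map_smul]
      have h3 := LinearMap.congr_fun h2 v
      rw [LinearMap.sum_apply] at h3
      simpa using h3
  · intro q v hv
    refine AddSubgroup.closure_induction (fun x hx => ?_) (zero_mem _)
      (fun x y _ _ hx hy => add_mem hx hy) (fun x _ hx => neg_mem hx) hv
    obtain ⟨c, m, hm, rfl⟩ := hx
    refine AddSubgroup.closure_induction (p := fun m _ => c ^ p ^ q • j m ∈ _)
      (fun x hx => ?_) (by rw [map_zero, smul_zero]; exact zero_mem _)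
      (fun x y _ _ hx hy => by rw [map_add, smul_add]; exact add_mem hx hy)
      (fun x _ hx => by rw [map_neg, smul_neg]; exact neg_mem hx) (S.gen q m hm)
    obtain ⟨d, m', hm', rfl⟩ := hx
    refine AddSubgroup.subset_closure ⟨c * algebraMap R R' d, j m',
      AddSubgroup.subset_closure ⟨1, m', hm', by rw [one_pow, one_smul]⟩, ?_⟩
    rw [map_smul, ← algebraMap_smul R' (d ^ p ^ q) (j m'), smul_smul, mul_pow, map_pow]

end Ex

section Reg

variable {p : ℕ} [hp : Fact p.Prime] {A R : Type*} {n : ℕ} [CommRing A] [CharP A p] [CommRing R]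
    [Algebra A R] [Algebra R (Torus A n)] [IsScalarTower A R (Torus A n)]
    {E : Type*} [AddCommGroup E] [Module A E] {S₀ : FDiv p A E}
    {M : Type*} [AddCommGroup M] [Module R M]
    [Module A M] [IsScalarTower A R M] {S : FDiv p R M} {ι : E →ₗ[A] M}
    {V : Type*} [AddCommGroup V]
    [Module (Torus A n) V] [Module R V] [IsScalarTower R (Torus A n) V]
    {T : FDiv p (Torus A n) V} {j : M →ₗ[R] V}

omit hp [CharP A p] in
theorem jι_smul (a : A) (e : E) : j (ι (a • e)) = algebraMap A (Torus A n) a • j (ι e) := by
  rw [map_smul, ← algebraMap_smul R a (ι e), map_smul, ← algebraMap_smul (Torus A n),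
    ← IsScalarTower.algebraMap_apply]

omit hp [CharP A p] in
theorem regular_of_pull (h : IsPull S₀ S ι) (hj : IsPull S T j) : RegularTorus T := by
  classical
  intro i ε
  have hmem : ∀ q, ∀ e ∈ S₀.F q, j (ι e) ∈ T.F q := by
    intro q e he
    rw [hj.2 q]
    refine AddSubgroup.subset_closure ⟨1, ι e, ?_, by rw [one_pow, one_smul]⟩
    rw [h.2 q]
    exact AddSubgroup.subset_closure ⟨1, e, he, by rw [one_pow, one_smul]⟩
  have hscal : ∀ a : A, algebraMap A (Torus A n) a ∈ chart A i ε := fun a =>
    Subalgebra.algebraMap_mem _ a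
  refine ⟨Submodule.span (chart A i ε) (Set.range fun e : E => j (ι e)), ?_, ?_, ?_⟩
  · obtain ⟨d, e, ξ, hsum⟩ := S₀.exists_coords
    have h1 : Submodule.span (chart A i ε) (Set.range fun e : E => j (ι e))
        = Submodule.span (chart A i ε) (Set.range fun l : Fin d => j (ι (e l))) := by
      apply le_antisymm
      · rw [Submodule.span_le]
        rintro _ ⟨x, rfl⟩
        show j (ι x) ∈ _
        rw [← hsum x, map_sum, map_sum]
        apply Submodule.sum_mem
        intro l _
        rw [jι_smul (n := n)]
        exact Submodule.smul_mem _ (⟨_, hscal _⟩ : chart A i ε) (Submodule.subset_span ⟨l, rfl⟩)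
      · apply Submodule.span_mono
        rintro _ ⟨l, rfl⟩
        exact ⟨e l, rfl⟩
    rw [h1]
    exact Submodule.fg_span (Set.finite_range _)
  · rw [eq_top_iff]
    intro v _
    induction v using hj.1.inductionOn with
    | zero => exact zero_mem _
    | tmul m =>
      induction m using h.1.inductionOn with
      | zero => rw [map_zero]; exact zero_mem _
      | tmul e =>
        exact Submodule.subset_span (Submodule.subset_span ⟨e, rfl⟩)
      | smul s m ih =>
        rw [map_smul, ← algebraMap_smul (Torus A n)]
        exact Submodule.smul_mem _ _ (ih trivial)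
      | add x y hx hy => rw [map_add]; exact add_mem (hx trivial) (hy trivial)
    | smul s v ih => exact Submodule.smul_mem _ _ (ih trivial)
    | add x y hx hy => exact add_mem (hx trivial) (hy trivial)
  · intro q Q Q' hQ hQ' v hv
    obtain ⟨d, e, ξ, he, hξ, hsum⟩ := S₀.dual q
    have key : ∀ (f : Torus A n) (x : E), f ∈ chart A i ε →
        Q' (f • j (ι x)) ∈ Submodule.span (chart A i ε) (Set.range fun e : E => j (ι e)) := by
      intro f x hf
      rw [← hsum x, map_sum, map_sum, Finset.smul_sum, map_sum]
      apply Submodule.sum_mem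
      intro l _
      rw [jι_smul (n := n), smul_smul, hQ' _ _ (hmem q _ (he l))]
      obtain ⟨g, hg, hgeq⟩ := hQ.2 0 (f * algebraMap A (Torus A n) (ξ l x)) (mul_mem hf (hscal _))
      rw [pow_zero, one_mul, one_mul] at hgeq
      rw [hgeq]
      exact Submodule.smul_mem _ (⟨g, hg⟩ : chart A i ε) (Submodule.subset_span ⟨e l, rfl⟩)
    have hsp : ∀ v ∈ Submodule.span (chart A i ε) (Set.range fun e : E => j (ι e)),
        v ∈ AddSubgroup.closure {x | ∃ (f : Torus A n) (e : E), f ∈ chart A i ε ∧
          x = f • j (ι e)} := by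
      intro v hv
      induction hv using Submodule.span_induction with
      | mem x hx =>
        obtain ⟨e, rfl⟩ := hx
        exact AddSubgroup.subset_closure ⟨1, e, one_mem _, by rw [one_smul]⟩
      | zero => exact zero_mem _
      | add x y _ _ hx hy => exact add_mem hx hy
      | smul c x _ hx =>
        refine AddSubgroup.closure_induction (p := fun v _ => c • v ∈ _)
          (fun x hx => ?_) (by rw [smul_zero]; exact zero_mem _)
          (fun x y _ _ hx hy => by rw [smul_add]; exact add_mem hx hy)
          (fun x _ hx => by rw [smul_neg]; exact neg_mem hx) hx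
        obtain ⟨f, e, hf, rfl⟩ := hx
        exact AddSubgroup.subset_closure ⟨(c : Torus A n) * f, e, mul_mem c.2 hf, by
          rw [mul_smul]; rfl⟩
    refine AddSubgroup.closure_induction (p := fun v _ => Q' v ∈ _)
      (fun x hx => ?_) (by rw [map_zero]; exact zero_mem _)
      (fun x y _ _ hx hy => by rw [map_add]; exact add_mem hx hy)
      (fun x _ hx => by rw [map_neg]; exact neg_mem hx) (hsp v hv)
    obtain ⟨f, e, hf, rfl⟩ := hx
    exact key f e hf

end Reg

end FR
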