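import Pool.Agent.Lib.FR.Grad

/-!
# Reflection of `p^q`-th powers
-/

set_option autoImplicit false

namespace FR

open Finset FD

section Pow

variable {p : ℕ} [hp : Fact p.Prime] {k A B R : Type*} {n : ℕ} [Field k] [CharP k p]
    [IsAlgClosed k] [CommRing A] [Algebra k A] [CommRing B] [IsDomain B]
    [Algebra k B] [Algebra B (Torus k n)] [IsScalarTower k B (Torus k n)] [CommRing R]
    [Algebra A R] [Algebra B R]
    [Algebra R (Torus A n)] (D : Data k A B R n) (hZ : Chart B (Torus k n))
    [CharP A p]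

omit [CharP k p] in
theorem li_pow [IsReduced A] {σ : Type*} (bA : Module.Basis σ k A) (q : ℕ) :
    LinearIndependent k fun s => bA s ^ p ^ q := by
  rw [linearIndependent_iff']
  intro s c hc i hi
  choose d hd using fun i => isPow_k (p := p) q (c i)
  have h1 : (∑ i ∈ s, d i • bA i) ^ p ^ q = 0 := by
    rw [sum_pow_char_pow, ← hc]
    apply Finset.sum_congr rfl
    intro i _
    rw [smul_pow, hd]
  have h2 : ∑ i ∈ s, d i • bA i = 0 := IsReduced.eq_zero _ ⟨_, h1⟩
  rw [← hd i, linearIndependent_iff'.mp bA.linearIndependent s d h2 i hi,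
    zero_pow (pow_ne_zero _ hp.out.ne_zero)]

include D hZ in
omit [CharP k p] in
theorem refl_pow [IsReduced A] {q : ℕ} {r : R} (h : IsPow p q (algebraMap R (Torus A n) r)) :
    IsPow p q r := by
  classical
  obtain ⟨t, ht⟩ := h
  obtain ⟨c, rfl⟩ := T_expand D.bA t
  have hli := li_pow (p := p) D.bA q
  -- linear forms dual to the `bA s ^ p ^ q`
  have hl : ∀ s, ∃ l : A →ₗ[k] k, ∀ s', l (D.bA s' ^ p ^ q) = if s' = s then 1 else 0 := by
    intro s
    obtain ⟨l, hl⟩ := LinearMap.exists_extend ((Finsupp.lapply s).comp hli.repr)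
    refine ⟨l, fun s' => ?_⟩
    have h1 := LinearMap.congr_fun hl ⟨D.bA s' ^ p ^ q, Submodule.subset_span ⟨s', rfl⟩⟩
    rw [LinearMap.comp_apply, LinearMap.comp_apply, hli.repr_eq_single s' _ rfl,
      Finsupp.lapply_apply, Finsupp.single_apply] at h1
    exact h1
  have hcs : ∀ s, ∃ b : B, algebraMap B (Torus k n) b = c s := by
    intro s
    obtain ⟨l, hl⟩ := hl s
    have h1 := lamT_algebraMap D l r
    have h2 : lamT l (algebraMap R (Torus A n) r) = c s ^ p ^ q := by
      rw [← ht, Finsupp.sum, sum_pow_char_pow, map_sum]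
      have h3 : ∀ i ∈ c.support, lamT l ((toT k A n (c i) * algebraMap A (Torus A n) (D.bA i))
          ^ p ^ q) = if i = s then c s ^ p ^ q else 0 := by
        intro i _
        rw [mul_pow, ← map_pow (toT k A n), ← map_pow (algebraMap A (Torus A n)), lamT_mul, hl]
        split_ifs with h
        · rw [h, map_one, one_mul]
        · rw [map_zero, zero_mul]
      rw [Finset.sum_congr rfl h3, Finset.sum_ite_eq']
      split_ifs with h
      · rfl
      · rw [Finsupp.notMem_support_iff.mp h, zero_pow (pow_ne_zero _ hp.out.ne_zero)]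
    exact hZ.root (p ^ q) (c s) (lamR D l r) (pow_pos hp.out.pos q) (by rw [← h2, h1])
  choose b hb using hcs
  refine ⟨∑ s ∈ c.support, algebraMap B R (b s) * algebraMap A R (D.bA s), ?_⟩
  apply alg_inj D hZ
  rw [map_pow, ← ht, map_sum, Finsupp.sum]
  congr 1
  apply Finset.sum_congr rfl
  intro s _
  rw [map_mul, D.hB, D.hA, hb]

end Pow

end FR
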