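import Pool.Agent.Lib.FR.Refl

/-!
# `M = B ⊗_k E`
-/

set_option autoImplicit false

namespace FR

open Finset FD

section BC

variable {k A B R : Type*} {n : ℕ} [Field k] [CommRing A] [Algebra k A] [CommRing B]
    [Algebra k B] [Algebra B (Torus k n)] [CommRing R] [Algebra A R] [Algebra B R]
    [Algebra R (Torus A n)] (D : Data k A B R n)
    {M : Type*} [AddCommGroup M] [Module R M] [Module B M] [IsScalarTower B R M]
    [Module A M] [IsScalarTower A R M]
    {E : Type*} [AddCommGroup E] [Module A E] [Module k E] [IsScalarTower k A E]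
    (ι : E →ₗ[A] M) {τ : Type*} (β : Module.Basis τ k E)

include D

theorem R_smul_span {r : R} {x : M} (hx : x ∈ Submodule.span B (Set.range ι)) :
    r • x ∈ Submodule.span B (Set.range ι) := by
  induction r using R_ind D with
  | h0 => rw [zero_smul]; exact zero_mem _
  | hadd r s hr hs => rw [add_smul]; exact add_mem hr hs
  | hmul b a =>
    rw [mul_smul, algebraMap_smul]
    apply Submodule.smul_mem
    induction hx using Submodule.span_induction with
    | mem x hx =>
      obtain ⟨e, rfl⟩ := hx
      rw [algebraMap_smul, ← map_smul]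
      exact Submodule.subset_span ⟨_, rfl⟩
    | zero => rw [smul_zero]; exact zero_mem _
    | add x y _ _ hx hy => rw [smul_add]; exact add_mem hx hy
    | smul c x _ hx =>
      have : algebraMap A R a • c • x = c • algebraMap A R a • x := by
        rw [← algebraMap_smul R c x, ← algebraMap_smul R c (algebraMap A R a • x), smul_smul,
          smul_smul, mul_comm]
      rw [this]
      exact Submodule.smul_mem _ _ hx

theorem k_smul_eq (c : k) (e : E) (b : B) :
    b • ι (c • e) = (b * algebraMap k B c) • ι e := by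
  rw [← algebraMap_smul A c e, map_smul, ← algebraMap_smul R (algebraMap k A c) (ι e), D.hk,
    algebraMap_smul, mul_smul]

theorem exists_sum (x : TensorProduct A R E) :
    ∃ c : τ →₀ B, x = c.sum fun i b => TensorProduct.tmul A (algebraMap B R b) (β i) := by
  classical
  induction x using TensorProduct.induction_on with
  | zero => exact ⟨0, by simp⟩
  | add x y hx hy =>
    obtain ⟨c, rfl⟩ := hx
    obtain ⟨d, rfl⟩ := hy
    refine ⟨c + d, ?_⟩
    rw [Finsupp.sum_add_index']
    · intro i; rw [map_zero, TensorProduct.zero_tmul]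
    · intro i b b'; rw [map_add, TensorProduct.add_tmul]
  | tmul r e =>
    induction r using R_ind D with
    | h0 => exact ⟨0, by simp⟩
    | hadd r s hr hs =>
      obtain ⟨c, hc⟩ := hr
      obtain ⟨d, hd⟩ := hs
      refine ⟨c + d, ?_⟩
      rw [Finsupp.sum_add_index', ← hc, ← hd, TensorProduct.add_tmul]
      · intro i; rw [map_zero, TensorProduct.zero_tmul]
      · intro i b b'; rw [map_add, TensorProduct.add_tmul]
    | hmul b a =>
      refine ⟨(β.repr (a • e)).mapRange (fun c => b * algebraMap k B c) (by simp), ?_⟩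
      rw [Finsupp.sum_mapRange_index (by intro i; rw [map_zero, TensorProduct.zero_tmul])]
      have h1 : TensorProduct.tmul A (algebraMap B R b * algebraMap A R a) e
          = TensorProduct.tmul A (algebraMap B R b) (a • e) := by
        rw [← TensorProduct.smul_tmul, Algebra.smul_def, mul_comm]
      rw [h1]
      conv_lhs => rw [← β.linearCombination_repr (a • e), Finsupp.linearCombination_apply,
        Finsupp.sum, TensorProduct.tmul_sum]
      apply Finset.sum_congr rfl
      intro i _
      rw [← algebraMap_smul A _ (β i), ← TensorProduct.smul_tmul, Algebra.smul_def, D.hk, ← map_mul,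
        mul_comm]

theorem isBaseChange_of (hspan : Submodule.span B (Set.range ι) = ⊤)
    (hli : LinearIndependent B fun i => ι (β i)) : IsBaseChange R ι := by
  classical
  have hbij : Function.Bijective (LinearMap.liftBaseChange R ι) := by
    constructor
    · rw [injective_iff_map_eq_zero]
      intro x hx
      obtain ⟨c, rfl⟩ := exists_sum D β x
      have h1 : c.sum (fun i b => b • ι (β i)) = 0 := by
        rw [← hx, Finsupp.sum, Finsupp.sum, map_sum]
        apply Finset.sum_congr rfl
        intro i _
        rw [LinearMap.liftBaseChange_tmul, algebraMap_smul]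
      have h2 := linearIndependent_iff.mp hli c (by rw [Finsupp.linearCombination_apply, h1])
      rw [h2, Finsupp.sum_zero_index]
    · intro m
      have hm : m ∈ Submodule.span B (Set.range ι) := by rw [hspan]; trivial
      induction hm using Submodule.span_induction with
      | mem x hx =>
        obtain ⟨e, rfl⟩ := hx
        exact ⟨TensorProduct.tmul A 1 e, by rw [LinearMap.liftBaseChange_tmul, one_smul]⟩
      | zero => exact ⟨0, map_zero _⟩
      | add x y _ _ hx hy =>
        obtain ⟨x', rfl⟩ := hx
        obtain ⟨y', rfl⟩ := hy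
        exact ⟨x' + y', map_add _ _ _⟩
      | smul b x _ hx =>
        obtain ⟨x', rfl⟩ := hx
        exact ⟨algebraMap B R b • x', by rw [map_smul, algebraMap_smul]⟩
  exact IsBaseChange.of_equiv (LinearEquiv.ofBijective _ hbij) fun e => by
    rw [LinearEquiv.ofBijective_apply, LinearMap.liftBaseChange_tmul, one_smul]

end BC

section Sp

variable {p : ℕ} [hp : Fact p.Prime] {k A B R : Type*} {n : ℕ} [Field k] [CharP k p]
    [IsAlgClosed k] [CommRing A] [Algebra k A] [CharP A p]
    [CommRing B] [IsDomain B]
    [Algebra k B] [Algebra B (Torus k n)] [IsScalarTower k B (Torus k n)] [CommRing R]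
    [Algebra A R] [Algebra B R] [Algebra R (Torus A n)] (D : Data k A B R n)
    (hZ : Chart B (Torus k n))
    {M : Type*} [AddCommGroup M] [Module R M] [Module B M] [IsScalarTower B R M]
    [Module A M] [IsScalarTower A R M]
    {S : FDiv p R M} {V : Type*} [AddCommGroup V]
    [Module (Torus A n) V] [Module R V] [IsScalarTower R (Torus A n) V]
    {T : FDiv p (Torus A n) V} {j : M →ₗ[R] V} (hj : IsPull S T j)
    {E : Type*} [AddCommGroup E] [Module A E] [Module k E] [IsScalarTower k A E]
    (ι : E →ₗ[A] M) (G : Gr k A T E) (hG : ∀ e, G.j e = j (ι e))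

include hZ in
omit hp [CharP k p] [IsAlgClosed k] [CharP A p] [Algebra k B]
  [IsScalarTower k B (Torus k n)] in
theorem exists_N_mon (s : Finset (Fin n → ℤ)) : ∃ c : B, c ≠ 0 ∧ ∀ a ∈ s, ∃ b : B,
    algebraMap B (Torus k n) b = algebraMap B (Torus k n) c * mon k a := by
  classical
  induction s using Finset.induction_on with
  | empty => exact ⟨1, one_ne_zero, by simp⟩
  | insert a s _ ih =>
    obtain ⟨c, hc0, hc⟩ := ih
    obtain ⟨c', b, hc', hb⟩ := hZ.frac (mon k a)
    refine ⟨c * c', mul_ne_zero hc0 hc', fun a' ha' => ?_⟩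
    rcases Finset.mem_insert.mp ha' with rfl | h
    · exact ⟨c * b, by rw [map_mul, ← hb, map_mul]; ring⟩
    · obtain ⟨d, hd⟩ := hc a' h
      exact ⟨c' * d, by rw [map_mul, hd, map_mul]; ring⟩

include D hZ hj hG in
theorem exists_N_one (e : M) : ∃ c : B, c ≠ 0 ∧ ∀ r : R,
    c • r • e ∈ Submodule.span B (Set.range ι) := by
  obtain ⟨c₀, hc₀, hN⟩ := exists_N_mon (k := k) hZ (G.comp (j e)).support
  refine ⟨c₀, hc₀, fun r => ?_⟩
  induction r using R_ind D with
  | h0 => rw [zero_smul, smul_zero]; exact zero_mem _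
  | hadd r s hr hs => rw [add_smul, smul_add]; exact add_mem hr hs
  | hmul b a =>
    have h0 : c₀ • (algebraMap B R b * algebraMap A R a) • e
        = b • c₀ • algebraMap A R a • e := by
      rw [mul_smul, algebraMap_smul, smul_smul, smul_smul, mul_comm]
    rw [h0]
    apply Submodule.smul_mem
    choose! c hc using hN
    have h1 : c₀ • algebraMap A R a • e
        = ∑ x ∈ (G.comp (j e)).support, c x • ι (a • G.comp (j e) x) := by
      apply j_inj D hZ hj
      rw [j_smul_B D, map_smul, map_sum]
      conv_lhs => rw [G.eq_sum (j e), Finset.smul_sum, Finset.smul_sum]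
      apply Finset.sum_congr rfl
      intro x hx
      rw [j_smul_B D, hc x hx, ← hG, G.lin, map_mul, toT_mon,
        ← algebraMap_smul (Torus A n) (algebraMap A R a), D.hA, smul_smul, smul_smul, smul_smul]
      congr 1; ring
    rw [h1]
    apply Submodule.sum_mem
    intro x _
    exact Submodule.smul_mem _ _ (Submodule.subset_span ⟨_, rfl⟩)

include D hZ hj hG in
theorem exists_N : ∃ c : B, c ≠ 0 ∧ ∀ m : M, c • m ∈ Submodule.span B (Set.range ι) := by
  classical
  obtain ⟨d, e, ξ, hsum⟩ := S.exists_coords
  choose c hc0 hc using fun i => exists_N_one D hZ hj ι G hG (e i)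
  refine ⟨∏ i, c i, Finset.prod_ne_zero_iff.mpr fun i _ => hc0 i, fun m => ?_⟩
  rw [← hsum m, Finset.smul_sum]
  apply Submodule.sum_mem
  intro i _
  rw [← Finset.prod_erase_mul _ _ (Finset.mem_univ i), mul_smul]
  exact Submodule.smul_mem _ _ (hc i _)

include D hj hG in
omit [CharP A p] [IsDomain B] in
theorem lam_span (l : E →ₗ[k] k) {x : M} (hx : x ∈ Submodule.span B (Set.range ι)) :
    ∃ b : B, algebraMap B (Torus k n) b = G.lam l (j x) := by
  induction hx using Submodule.span_induction with
  | mem x hx =>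
    obtain ⟨e, rfl⟩ := hx
    exact ⟨algebraMap k B (l e), by rw [← hG, G.lam_j, ← IsScalarTower.algebraMap_apply]⟩
  | zero => exact ⟨0, by simp⟩
  | add x y _ _ hx hy =>
    obtain ⟨b, hb⟩ := hx
    obtain ⟨c, hc⟩ := hy
    exact ⟨b + c, by rw [map_add, map_add, map_add, hb, hc]⟩
  | smul c x _ hx =>
    obtain ⟨b, hb⟩ := hx
    exact ⟨c * b, by rw [j_smul_B D, G.lam_smul, map_mul, hb]⟩

omit hp [CharP k p] [IsAlgClosed k] [CharP A p] in
theorem lam_expand {τ : Type*} (β : Module.Basis τ k E) (G : Gr k A T E) (v : V) :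
    ∃ t : Finset τ, ∀ t', t ⊆ t' →
      v = ∑ i ∈ t', toT k A n (G.lam (β.coord i) v) • G.j (β i) := by
  classical
  induction v using G.ind with
  | h0 => exact ⟨∅, fun t' _ => by simp⟩
  | hadd x y hx hy =>
    obtain ⟨t, ht⟩ := hx
    obtain ⟨u, hu⟩ := hy
    refine ⟨t ∪ u, fun t' ht' => ?_⟩
    conv_lhs => rw [ht t' (Finset.union_subset_left ht'), hu t' (Finset.union_subset_right ht'),
      ← Finset.sum_add_distrib]
    apply Finset.sum_congr rfl
    intro i _
    rw [map_add, map_add, add_smul]
  | hmon a e =>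
    refine ⟨(β.repr e).support, fun t' ht' => ?_⟩
    have h1 : e = ∑ i ∈ t', β.coord i e • β i := by
      conv_lhs => rw [← β.linearCombination_repr e, Finsupp.linearCombination_apply, Finsupp.sum]
      apply Finset.sum_subset ht'
      intro i _ hi
      rw [Finsupp.notMem_support_iff.mp hi, zero_smul]
    conv_lhs => rw [h1, map_sum, Finset.smul_sum]
    apply Finset.sum_congr rfl
    intro i _
    rw [G.lam_mon, single_eq, map_mul, toT_mon, toT_algebraMap,
      ← algebraMap_smul A (β.coord i e) (β i), G.lin, smul_smul,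
      mul_comm]

omit [IsAlgClosed k] in
theorem comp_support {q : ℕ} {v : V} (hv : P T q 0 v = v) {a : Fin n → ℤ}
    (ha : G.comp v a ≠ 0) : Cong p q a 0 := by
  classical
  by_contra hc
  have h1 : ∀ w : V, G.comp (P T q 0 w) a = 0 := by
    intro w
    induction w using G.ind with
    | h0 => simp
    | hadd x y hx hy => rw [map_add, map_add, Finsupp.add_apply, hx, hy, add_zero]
    | hmon b e =>
      rw [P_mon_j T G.j (fun e q => G.zero e q)]
      split_ifs with h
      · rw [G.comp_mon, Finsupp.single_apply, if_neg]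
        rintro rfl
        exact hc h
      · rw [map_zero, Finsupp.zero_apply]
  exact ha (by rw [← hv, h1])

theorem lam_isPow {q : ℕ} {v : V} (hv : P T q 0 v = v) (l : E →ₗ[k] k) :
    IsPow p q (G.lam l v) := by
  classical
  have h1 : G.lam l v = ∑ a ∈ (G.comp v).support,
      AddMonoidAlgebra.single a (l (G.comp v a)) := by
    conv_lhs => rw [G.eq_sum v, map_sum]
    simp only [G.lam_mon]
  rw [h1]
  have : ∀ s : Finset (Fin n → ℤ), s ⊆ (G.comp v).support →
      IsPow p q (∑ a ∈ s, AddMonoidAlgebra.single a (l (G.comp v a)) : Torus k n) := by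
    intro s
    induction s using Finset.induction_on with
    | empty => intro _; rw [Finset.sum_empty]; exact FD.isPow_zero p q
    | insert a s ha ih =>
      intro hs
      rw [Finset.sum_insert ha]
      refine FD.IsPow.add (p := p) ?_ (ih (fun b hb => hs (Finset.mem_insert_of_mem hb)))
      have hc := comp_support G hv (Finsupp.mem_support_iff.mp (hs (Finset.mem_insert_self a s)))
      choose b hb using fun i => hc i
      obtain ⟨d, hd⟩ := isPow_k (p := p) q (l (G.comp v a))
      refine ⟨AddMonoidAlgebra.single b d, ?_⟩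
      rw [AddMonoidAlgebra.single_pow, hd]
      congr 1
      funext i
      have := hb i
      rw [Pi.zero_apply, sub_zero] at this
      rw [this, Pi.smul_apply, nsmul_eq_mul, Nat.cast_pow]
  exact this _ (Finset.Subset.refl _)

include D hZ hj hG

theorem mem_span_of_F {c : B} (hN : ∀ m : M, c • m ∈ Submodule.span B (Set.range ι)) {C₁ : ℕ}
    (hC : ∀ (Q : ℕ) (h : Torus k n) (b : B), C₁ < Q →
      algebraMap B (Torus k n) c * h ^ Q = algebraMap B (Torus k n) b →
      ∃ r : B, algebraMap B (Torus k n) r = h) {q : ℕ}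
    (hq : C₁ < p ^ q) {m : M} (hm : m ∈ S.F q) :
    m ∈ Submodule.span B (Set.range ι) := by
  classical
  have hjm : j m ∈ T.F q := by
    rw [hj.2 q]
    exact AddSubgroup.subset_closure ⟨1, m, hm, by rw [one_pow, one_smul]⟩
  have hP : P T q 0 (j m) = j m := P_zero_of_mem T q hjm
  let β := Module.Basis.ofVectorSpace k E
  have h1 : ∀ i, ∃ b : B, algebraMap B (Torus k n) b = G.lam (β.coord i) (j m) := by
    intro i
    obtain ⟨h, hh⟩ := lam_isPow G hP (β.coord i)
    obtain ⟨b, hb⟩ := lam_span D hj ι G hG (β.coord i) (hN m)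
    obtain ⟨r, hr⟩ := hC (p ^ q) h b hq (by rw [hb, hh, j_smul_B D, G.lam_smul])
    exact ⟨r ^ p ^ q, by rw [map_pow, hr, hh]⟩
  choose b hb using h1
  obtain ⟨t, ht⟩ := lam_expand β G (j m)
  have h2 : m = ∑ i ∈ t, b i • ι (β i) := by
    apply j_inj D hZ hj
    rw [map_sum, ht t (Finset.Subset.refl _)]
    apply Finset.sum_congr rfl
    intro i _
    rw [j_smul_B D, hb, hG]
  rw [h2]
  apply Submodule.sum_mem
  intro i _
  exact Submodule.smul_mem _ _ (Submodule.subset_span ⟨_, rfl⟩)

theorem span_top : Submodule.span B (Set.range ι) = ⊤ := by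
  obtain ⟨c, hc0, hN⟩ := exists_N D hZ hj ι G hG
  obtain ⟨C₁, hC₁⟩ := hZ.bdd c hc0
  rw [eq_top_iff]
  intro m _
  have hlt : C₁ < p ^ C₁ := Nat.lt_pow_self hp.out.one_lt
  obtain ⟨d, e, ξ, he, _, hsum⟩ := S.dual C₁
  rw [← hsum m]
  apply Submodule.sum_mem
  intro i _
  exact R_smul_span D ι (mem_span_of_F D hZ hj ι G hG hN hC₁ hlt (he i))

theorem li_B {τ : Type*} (β : Module.Basis τ k E) : LinearIndependent B fun i => ι (β i) := by
  classical
  rw [linearIndependent_iff']
  intro s c hc i hi
  apply hZ.inj
  rw [map_zero]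
  have h1 : G.lam (β.coord i) (j (∑ i ∈ s, c i • ι (β i))) = algebraMap B (Torus k n) (c i) := by
    rw [map_sum, map_sum]
    have h2 : ∀ x ∈ s, G.lam (β.coord i) (j (c x • ι (β x)))
        = if x = i then algebraMap B (Torus k n) (c i) else 0 := by
      intro x _
      rw [j_smul_B D, G.lam_smul, ← hG, G.lam_j, Module.Basis.coord_apply,
        Module.Basis.repr_self, Finsupp.single_apply]
      split_ifs with h
      · rw [h, map_one, mul_one]
      · rw [map_zero, mul_zero]
    rw [Finset.sum_congr rfl h2, Finset.sum_ite_eq', if_pos hi]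
  rw [← h1, hc, map_zero, map_zero]

theorem isBaseChange_E : IsBaseChange R ι :=
  isBaseChange_of D ι (Module.Basis.ofVectorSpace k E) (span_top D hZ hj ι G hG)
    (li_B D hZ hj ι G hG _)

end Sp

end FR
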