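import Pool.Agent.Lib.FR.Cov
import Pool.Agent.Lib.FR.Lat

/-!
# Valuations
-/

set_option autoImplicit false

namespace FR

open Finset FD

/-- `v` is (the restriction to the domain `L` of) a discrete valuation of the fraction field of `L`,
written additively; the value `v 0` is irrelevant. -/
structure IsVal {L : Type*} [CommRing L] (v : L → ℤ) : Prop where
  mul : ∀ f g, f ≠ 0 → g ≠ 0 → v (f * g) = v f + v g
  add : ∀ f g, f ≠ 0 → g ≠ 0 → f + g ≠ 0 → min (v f) (v g) ≤ v (f + g)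

section IsVal

variable {L : Type*} [CommRing L] [IsDomain L] {v : L → ℤ} (hv : IsVal v)

include hv

theorem IsVal.one : v 1 = 0 := by
  have := hv.mul 1 1 one_ne_zero one_ne_zero
  rw [mul_one] at this
  omega

theorem IsVal.pow {f : L} (hf : f ≠ 0) (m : ℕ) : v (f ^ m) = m * v f := by
  induction m with
  | zero => rw [pow_zero, hv.one, Nat.cast_zero, zero_mul]
  | succ m ih => rw [pow_succ, hv.mul _ _ (pow_ne_zero _ hf) hf, ih]; push_cast; ring

omit [IsDomain L] in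
theorem IsVal.sum {ι : Type*} (s : Finset ι) (f : ι → L) (h : ∑ i ∈ s, f i ≠ 0) :
    ∃ i ∈ s, f i ≠ 0 ∧ v (f i) ≤ v (∑ i ∈ s, f i) := by
  classical
  induction s using Finset.induction_on with
  | empty => exact absurd Finset.sum_empty h
  | insert a s ha ih =>
    rw [Finset.sum_insert ha] at h ⊢
    by_cases h1 : f a = 0
    · rw [h1, zero_add] at h ⊢
      obtain ⟨i, hi, h2, h3⟩ := ih h
      exact ⟨i, Finset.mem_insert_of_mem hi, h2, h3⟩
    by_cases h2 : ∑ i ∈ s, f i = 0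
    · exact ⟨a, Finset.mem_insert_self _ _, h1, by rw [h2, add_zero]⟩
    obtain ⟨i, hi, h3, h4⟩ := ih h2
    have h5 := hv.add _ _ h1 h2 h
    rcases min_le_iff.mp h5 with h6 | h6
    · exact ⟨a, Finset.mem_insert_self _ _, h1, h6⟩
    · exact ⟨i, Finset.mem_insert_of_mem hi, h3, h4.trans h6⟩

end IsVal

section VB

variable {B L : Type*} [CommRing B] [CommRing L] [IsDomain L] [Algebra B L]
  {I : Type*} [Finite I] {v : I → L → ℤ} (hv : ∀ i, IsVal (v i))
  (hinj : Function.Injective (algebraMap B L))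
  (hfrac : ∀ h : L, ∃ b c : B, b ≠ 0 ∧ algebraMap B L b * h = algebraMap B L c)
  (hB : ∀ h : L, h ≠ 0 → ((∃ b : B, algebraMap B L b = h) ↔ ∀ i, 0 ≤ v i h))

include hv hinj hfrac hB

theorem chart_of : Chart B L := by
  classical
  cases nonempty_fintype I
  refine ⟨hinj, hfrac, fun Q h c hQ hc => ?_, fun b hb => ?_⟩
  · by_cases h0 : h = 0
    · exact ⟨0, by rw [map_zero, h0]⟩
    rw [hB h h0]
    intro i
    have h1 := (hB _ (pow_ne_zero Q h0)).mp ⟨c, hc.symm⟩ i
    rw [(hv i).pow h0] at h1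
    by_contra hneg
    push Not at hneg
    have h2 : (0 : ℤ) < Q := by exact_mod_cast hQ
    nlinarith
  · refine ⟨∑ i, (v i (algebraMap B L b)).natAbs, fun Q h c hQ hc => ?_⟩
    have hbL : algebraMap B L b ≠ 0 := fun h => hb (hinj (by rw [h, map_zero]))
    by_cases h0 : h = 0
    · exact ⟨0, by rw [map_zero, h0]⟩
    rw [hB h h0]
    intro i
    have hc0 : algebraMap B L b * h ^ Q ≠ 0 := mul_ne_zero hbL (pow_ne_zero _ h0)
    have h1 := (hB _ hc0).mp ⟨c, hc.symm⟩ i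
    rw [(hv i).mul _ _ hbL (pow_ne_zero _ h0), (hv i).pow h0] at h1
    have h2 : (v i (algebraMap B L b)).natAbs ≤ ∑ i, (v i (algebraMap B L b)).natAbs :=
      Finset.single_le_sum (f := fun i => (v i (algebraMap B L b)).natAbs)
        (fun _ _ => Nat.zero_le _) (Finset.mem_univ i)
    set C := ∑ i, (v i (algebraMap B L b)).natAbs with hC
    have h3 : v i (algebraMap B L b) ≤ C := by omega
    by_contra hneg
    push Not at hneg
    have h5 : (C : ℤ) < Q := by exact_mod_cast hQ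
    have h6 : (Q : ℤ) * v i h ≤ -Q := by nlinarith [Int.natCast_nonneg Q]
    linarith

end VB

section Ord

variable {p : ℕ} {B L : Type*} [CommRing B] [IsDomain B] [CommRing L] [Algebra B L]
  (hinj : Function.Injective (algebraMap B L))
  {w : L → ℤ} (hw : IsVal w) (hwB : ∀ b : B, b ≠ 0 → 0 ≤ w (algebraMap B L b))
  {M : Type*} [AddCommGroup M] [Module B M]

/-- `c` is the order of `m` -/
def IsOrd (w : L → ℤ) {q : ℕ} {G : AddSubgroup M} (C : Co p q B G) (m : M) (c : ℤ) : Prop :=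
  (∃ i, C.ξ m i ≠ 0 ∧ w (algebraMap B L (C.ξ m i)) = c) ∧
    ∀ i, C.ξ m i ≠ 0 → c ≤ w (algebraMap B L (C.ξ m i))

omit [IsDomain B] in
theorem exists_ord {q : ℕ} {G : AddSubgroup M} (C : Co p q B G) {m : M} (hm : m ≠ 0) :
    ∃ c, IsOrd w C m c := by
  classical
  have hne : (C.ξ m).support.Nonempty := by
    rw [Finsupp.support_nonempty_iff]
    intro h
    apply hm
    rw [← C.eps_xi m, h, map_zero]
  obtain ⟨i, hi, hmin⟩ := Finset.exists_min_image (C.ξ m).support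
    (fun i => w (algebraMap B L (C.ξ m i))) hne
  exact ⟨_, ⟨i, Finsupp.mem_support_iff.mp hi, rfl⟩, fun i' hi' =>
    hmin i' (Finsupp.mem_support_iff.mpr hi')⟩

include hinj hw hwB

theorem ord_le {q q' : ℕ} {G G' : AddSubgroup M} (C : Co p q B G) (C' : Co p q' B G') {m : M}
    {c c' : ℤ} (hc : IsOrd w C m c) (hc' : IsOrd w C' m c') : c ≤ c' := by
  classical
  obtain ⟨⟨j, hj, rfl⟩, -⟩ := hc'
  have h1 : C'.ξ m j = ∑ i ∈ (C.ξ m).support, C.ξ m i * C'.ξ (C.ε (Finsupp.single i 1)) j := by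
    conv_lhs => rw [← C.eps_xi m, ← Finsupp.sum_single (C.ξ m), Finsupp.sum, map_sum, map_sum,
      Finsupp.finsetSum_apply]
    apply Finset.sum_congr rfl
    intro i _
    have h2 : Finsupp.single i (C.ξ m i) = C.ξ m i • Finsupp.single i (1 : B) := by
      rw [Finsupp.smul_single, smul_eq_mul, mul_one]
    rw [h2, map_smul, map_smul, Finsupp.smul_apply, smul_eq_mul]
  have h3 : algebraMap B L (C'.ξ m j) = ∑ i ∈ (C.ξ m).support,
      algebraMap B L (C.ξ m i * C'.ξ (C.ε (Finsupp.single i 1)) j) := by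
    rw [← map_sum, ← h1]
  have h4 : algebraMap B L (C'.ξ m j) ≠ 0 := fun h => hj (hinj (by rw [h, map_zero]))
  rw [h3] at h4
  obtain ⟨i, hi, h5, h6⟩ := hw.sum _ _ h4
  rw [← h3] at h6
  rw [map_mul] at h5 h6
  have h7 := left_ne_zero_of_mul h5
  have h8 := right_ne_zero_of_mul h5
  rw [hw.mul _ _ h7 h8] at h6
  have h9 := hwB (C'.ξ (C.ε (Finsupp.single i 1)) j) (fun h => h8 (by rw [h, map_zero]))
  have h10 := hc.2 i (Finsupp.mem_support_iff.mp hi)
  linarith

theorem ord_eq {q q' : ℕ} {G G' : AddSubgroup M} (C : Co p q B G) (C' : Co p q' B G') {m : M}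
    {c c' : ℤ} (hc : IsOrd w C m c) (hc' : IsOrd w C' m c') : c = c' :=
  le_antisymm (ord_le hinj hw hwB C C' hc hc') (ord_le hinj hw hwB C' C hc' hc)

end Ord

section Ex

variable {p : ℕ} [hp : Fact p.Prime] {k A B R : Type*} {n : ℕ} [Field k] [CharP k p]
    [IsAlgClosed k] [CommRing A] [Algebra k A] [CharP A p]
    [CommRing B] [IsDomain B]
    [Algebra k B] [Algebra B (Torus k n)] [IsScalarTower k B (Torus k n)] [CommRing R]
    [Algebra A R] [Algebra B R] [Algebra R (Torus A n)] (D : Data k A B R n)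
    (hZ : Chart B (Torus k n)) [CharP B p] [CharP R p]
    {M : Type*} [AddCommGroup M] [Module R M] [Module B M] [IsScalarTower B R M]
    {S : FDiv p R M} {V : Type*} [AddCommGroup V]
    [Module (Torus A n) V] [Module R V] [IsScalarTower R (Torus A n) V]
    {T : FDiv p (Torus A n) V} {j : M →ₗ[R] V} (hj : IsPull S T j)

theorem mon_ne_zero (a : Fin n → ℤ) : mon k a ≠ 0 := by
  intro h
  have h1 : mon k (-a) * mon k a = 1 := by rw [mon_mul_mon, neg_add_cancel, mon_zero]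
  rw [h, mul_zero] at h1
  exact zero_ne_one h1

/-- the linear forms on the exponents that are given by valuations -/
noncomputable def Wmap {I : Type*} (v : I → Torus k n → ℤ) (hv : ∀ i, IsVal (v i)) :
    (Fin n → ℤ) →ₗ[ℤ] (I → ℤ) :=
  AddMonoidHom.toIntLinearMap
    { toFun := fun a i => v i (mon k a)
      map_zero' := by
        funext i
        show v i (mon k 0) = 0
        rw [mon_zero]
        exact (hv i).one
      map_add' := by
        intro a b
        funext i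
        show v i (mon k (a + b)) = v i (mon k a) + v i (mon k b)
        rw [← mon_mul_mon]
        exact (hv i).mul _ _ (mon_ne_zero a) (mon_ne_zero b) }

theorem coherent {γ : ℕ → Fin n → ℤ} {v : V} (hv : v ∈ Vg T γ) (hv0 : v ≠ 0) {q r : ℕ}
    (h : q ≤ r) : Cong p q (γ r) (γ q) := by
  classical
  by_contra hc
  have h1 := P_P T h (γ q) (γ r) v
  rw [if_neg hc, hv r, hv q] at h1
  exact hv0 h1

include D hZ hj

/-- the order of a homogeneous element along a divisor -/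
theorem exists_int {w : Torus k n → ℤ} (hw : IsVal w)
    (hwB : ∀ b : B, b ≠ 0 → 0 ≤ w (algebraMap B (Torus k n) b)) {γ : ℕ → Fin n → ℤ} {v : V}
    (hv : v ∈ Vg T γ) (hv0 : v ≠ 0) :
    ∃ c : ℤ, ∀ q, (p : ℤ) ^ q ∣ c - w (mon k (γ q)) := by
  have hinjL := hZ.inj
  have hL : ∀ {x : B}, x ≠ 0 → algebraMap B (Torus k n) x ≠ 0 := fun hx h =>
    hx (hinjL (by rw [h, map_zero]))
  obtain ⟨b, m, hb, hm⟩ := exists_clear D hZ hj v
  have hm0 : m ≠ 0 := by
    rintro rfl
    rw [map_zero] at hm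
    exact hv0 (toT_smul_inj T (hL hb) hm)
  obtain ⟨C0, -⟩ := exists_cov D hj 0
  obtain ⟨c0, hc0⟩ := exists_ord (w := w) C0 hm0
  refine ⟨c0 - w (algebraMap B (Torus k n) b), fun q => ?_⟩
  obtain ⟨C, χ, hχj, hχs, hχp⟩ := exists_cov D hj q
  obtain ⟨c1, hc1⟩ := exists_ord (w := w) C hm0
  have h01 : c0 = c1 := ord_eq hinjL hw hwB C0 C hc0 hc1
  obtain ⟨vq, hvq, hvv⟩ := exists_of_P T (hv q)
  obtain ⟨⟨i, hi, hci⟩, -⟩ := hc1
  obtain ⟨h, hh⟩ := hχp i vq hvq
  have h1 : algebraMap B (Torus k n) (C.ξ m i)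
      = algebraMap B (Torus k n) b * (mon k (γ q) * h ^ p ^ q) := by
    rw [← hχj, ← hm, hvv, hχs, ← toT_mon (k := k) (A := A), hχs, hh]
  have h2 : algebraMap B (Torus k n) b * (mon k (γ q) * h ^ p ^ q) ≠ 0 := by
    rw [← h1]; exact hL hi
  have h3 : h ^ p ^ q ≠ 0 := right_ne_zero_of_mul (right_ne_zero_of_mul h2)
  have h4 : h ≠ 0 := fun h0 => h3 (by rw [h0, zero_pow (pow_ne_zero _ hp.out.ne_zero)])
  rw [h1, hw.mul _ _ (hL hb) (right_ne_zero_of_mul h2), hw.mul _ _ (mon_ne_zero _) h3,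
    hw.pow h4] at hci
  push_cast at hci
  refine ⟨w h, ?_⟩
  rw [h01, ← hci]
  ring

/-- the elements of degree zero come from `M` -/
theorem exists_e_zero {v : V} (hv : ∀ q, v ∈ GA A T q) :
    ∃ m : M, (∀ q, m ∈ GA A S q) ∧ v = j m := by
  have hinj := j_inj D hZ hj
  have hinjL := hZ.inj
  have hL : ∀ {x : B}, x ≠ 0 → algebraMap B (Torus k n) x ≠ 0 := fun hx h =>
    hx (hinjL (by rw [h, map_zero]))
  obtain ⟨b, m, hb, hm⟩ := exists_clear D hZ hj v
  obtain ⟨C₁, hC₁⟩ := hZ.bdd b hb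
  -- the case of large `q`
  have key : ∀ q, C₁ < p ^ q → ∃ m' : M, m' ∈ GA A S q ∧ m = b • m' := by
    intro q hq
    obtain ⟨C, χ, hχj, hχs, hχp⟩ := exists_cov D hj q
    have h2 : ∀ i, ∃ r : B, C.ξ m i = b * r ^ p ^ q := by
      intro i
      obtain ⟨h, hh⟩ := hχp i v (hv q)
      have h4 : algebraMap B (Torus k n) b * h ^ p ^ q = algebraMap B (Torus k n) (C.ξ m i) := by
        rw [← hχj, ← hm, hχs, hh]
      obtain ⟨r, hr⟩ := hC₁ (p ^ q) _ _ hq h4
      exact ⟨r, hinjL (by rw [map_mul, map_pow, hr, h4])⟩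
    obtain ⟨m', hm'⟩ := C.dvd_of (c := b) (m := m) fun i => by
      obtain ⟨r, hr⟩ := h2 i
      exact ⟨_, hr⟩
    refine ⟨m', ?_, hm'⟩
    rw [← C.eps_xi m', ← Finsupp.sum_single (C.ξ m'), Finsupp.sum, map_sum]
    apply AddSubgroup.sum_mem
    intro i _
    obtain ⟨r, hr⟩ := h2 i
    have h5 : C.ξ m' i = r ^ p ^ q := by
      apply mul_left_cancel₀ hb
      rw [← hr]
      conv_rhs => rw [hm', map_smul, Finsupp.smul_apply, smul_eq_mul]
    have h6 : Finsupp.single i (C.ξ m' i) = r ^ p ^ q • Finsupp.single i (1 : B) := by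
      rw [Finsupp.smul_single, smul_eq_mul, mul_one, h5]
    rw [h6, map_smul, ← algebraMap_smul R (r ^ p ^ q), map_pow]
    exact pow_smul_mem_GA S _ (C.mem i)
  have hlt : C₁ < p ^ C₁ := Nat.lt_pow_self hp.out.one_lt
  obtain ⟨m', hm', hmm'⟩ := key C₁ hlt
  obtain ⟨C0, -⟩ := exists_cov D hj 0
  refine ⟨m', fun q => ?_, ?_⟩
  · have h1 : C₁ < p ^ (max q C₁) :=
      hlt.trans_le (Nat.pow_le_pow_right hp.out.pos (le_max_right _ _))
    obtain ⟨m'', hm'', hmm''⟩ := key _ h1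
    have h2 : m' = m'' := C0.smul_cancel hb (by rw [← hmm', ← hmm''])
    rw [h2]
    have h3 : ∀ {q r : ℕ}, q ≤ r → GA A S r ≤ GA A S q := by
      intro q r hqr
      unfold GA
      apply AddSubgroup.closure_mono
      rintro _ ⟨a, m, hm, rfl⟩
      exact ⟨a, m, S.anti_le hqr hm, rfl⟩
    exact h3 (le_max_left _ _) hm''
  · have h1 : toT k A n (algebraMap B (Torus k n) b) • (v - j m') = 0 := by
      rw [smul_sub, hm, ← j_smul_B D, ← hmm', sub_self]
    exact sub_eq_zero.mp (toT_smul_inj T (hL hb) h1)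

/-- every homogeneous element is a monomial times an element of `M` -/
theorem exists_e {I : Type*} [Finite I] {v : I → Torus k n → ℤ} (hv : ∀ i, IsVal (v i))
    (hB : ∀ h : Torus k n, h ≠ 0 → ((∃ b : B, algebraMap B (Torus k n) b = h) ↔ ∀ i, 0 ≤ v i h))
    (hU : ∀ ℓ : ℕ, ℓ.Prime → ℓ ≠ p → ∀ a : Fin n → ℤ, (∀ i, (ℓ : ℤ) ∣ v i (mon k a)) →
      ∃ b : Fin n → ℤ, a = (ℓ : ℤ) • b) {γ : ℕ → Fin n → ℤ} {x : V}
    (hx : x ∈ Vg T γ) (hx0 : x ≠ 0) :
    ∃ (a : Fin n → ℤ) (m : M), (∀ q, m ∈ GA A S q) ∧ x = mon A a • j m := by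
  have hwB : ∀ i, ∀ b : B, b ≠ 0 → 0 ≤ v i (algebraMap B (Torus k n) b) := fun i b hb =>
    (hB _ (fun h => hb (hZ.inj (by rw [h, map_zero])))).mp ⟨b, rfl⟩ i
  choose c hc using fun i => exists_int D hZ hj (hv i) (hwB i) hx hx0
  obtain ⟨a, ha⟩ := lat hp.out (Wmap v hv) hU γ (fun q r hqr => coherent hx hx0 hqr) c
    (fun q i => hc i q)
  have h1 : ∀ q, P T q 0 (mon A (-a) • x) = mon A (-a) • x := by
    classical
    intro q
    rw [P_mon_smul]
    conv_lhs => rw [← hx q]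
    rw [P_P T le_rfl, if_pos, hx q]
    intro j
    have := ha q j
    simpa using this
  obtain ⟨m, hm, hmm⟩ := exists_e_zero D hZ hj (v := mon A (-a) • x)
    (fun q => mem_Gq_of_P T (h1 q))
  refine ⟨a, m, hm, ?_⟩
  rw [← hmm, smul_smul, mon_mul_mon, add_neg_cancel, mon_zero, one_smul]

end Ex

end FR
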